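import Pool.Agent.H58.NT.CRa

/-!
# NI2, chapter P: the zeros of a function add up to zero

`abel`: if `g` is a function on `W` without poles outside `0`, `wt g = n` and `g` has `n` different zeros `P ≠ 0`, then the sum of these zeros is `0`.
Proof: the ideals `I_P = (X - x, Y - y)` are pairwise coprime, the quotient of the coordinate ring `A` by their product has dimension `n = dim A/(g)`, so
`∏ I_P = (g)`, and `toClass` is injective.
-/

set_option autoImplicit false

open scoped Polynomial.Bivariate

namespace Pool.Agent.H69.NP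

open WeierstrassCurve WeierstrassCurve.Affine Polynomial Pool.Agent.H27.SU Pool.Agent.H58.NT

variable {K : Type} [Field K] {W : WeierstrassCurve K}

/-- the coordinate ring -/
abbrev AA (W : WeierstrassCurve K) : Type := W.toAffine.CoordinateRing

/-- the function `g` as a polynomial -/
noncomputable def toP (g : RR W) : K[X][Y] := C g.re + C g.im * Y

/-- the function `g` in the coordinate ring -/
noncomputable def toA (g : RR W) : AA W := CoordinateRing.mk W.toAffine (toP g)

/-- the ideal of a point -/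
noncomputable def IP (P : W.toAffine.Point) : Ideal (AA W) := CoordinateRing.XYIdeal W.toAffine (cx P) (C (cy P))

/-- the ideal of a point in the polynomial ring -/
noncomputable def JP (P : W.toAffine.Point) : Ideal K[X][Y] := (IP P).comap (CoordinateRing.mk W.toAffine)

theorem mem_JP {P : W.toAffine.Point} {F : K[X][Y]} : F ∈ JP P ↔ CoordinateRing.mk W.toAffine F ∈ IP P := Iff.rfl

theorem X_mem (P : W.toAffine.Point) : C (X - C (cx P)) ∈ JP P :=
  Ideal.subset_span (Set.mem_insert _ _)

theorem Y_mem (P : W.toAffine.Point) : (Y - C (C (cy P)) : K[X][Y]) ∈ JP P :=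
  Ideal.subset_span (Set.mem_insert_of_mem _ rfl)

theorem pol_mem (p : K[X]) (P : W.toAffine.Point) : C (p - C (p.eval (cx P))) ∈ JP P := by
  obtain ⟨q, hq⟩ := X_sub_C_dvd_sub_C_eval (a := cx P) (p := p)
  rw [hq, C_mul]
  exact Ideal.mul_mem_right _ _ (X_mem P)

theorem toP_sub_mem (g : RR W) (P : W.toAffine.Point) : toP g - C (C (gv g P)) ∈ JP P := by
  have e : toP g - C (C (gv g P)) = C (g.re - C (g.re.eval (cx P))) + C (g.im - C (g.im.eval (cx P))) * Y +
      C (C (g.im.eval (cx P))) * (Y - C (C (cy P))) := by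
    unfold gv toP
    simp only [C_sub, C_add, C_mul]
    ring
  rw [e]
  exact add_mem (add_mem (pol_mem _ P) (Ideal.mul_mem_right _ _ (pol_mem _ P))) (Ideal.mul_mem_left _ _ (Y_mem P))

theorem toA_mem {g : RR W} {P : W.toAffine.Point} (h : gv g P = 0) : toA g ∈ IP P := by
  have h1 := toP_sub_mem g P
  rw [h, C_0, C_0, sub_zero] at h1
  exact h1

theorem cop_aux {P Q : W.toAffine.Point} {F G : K[X][Y]} (hF : F ∈ JP P) (hG : G ∈ JP Q) {c : K} (hc : c ≠ 0)
    (e : F - G = C (C c)) : IsCoprime (IP P) (IP Q) := by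
  have h1 : C (C c⁻¹) * F ∈ JP P := Ideal.mul_mem_left _ _ hF
  have h2 : -(C (C c⁻¹) * G) ∈ JP Q := neg_mem (Ideal.mul_mem_left _ _ hG)
  rw [Ideal.isCoprime_iff_exists]
  refine ⟨CoordinateRing.mk W.toAffine (C (C c⁻¹) * F), h1, CoordinateRing.mk W.toAffine (-(C (C c⁻¹) * G)), h2, ?_⟩
  have e2 : C (C c⁻¹) * F + -(C (C c⁻¹) * G) = 1 := by
    have : C (C c⁻¹) * F + -(C (C c⁻¹) * G) = C (C c⁻¹) * (F - G) := by ring
    rw [this, e, ← C_mul, ← C_mul, inv_mul_cancel₀ hc, C_1, C_1]
  have e3 := congrArg (CoordinateRing.mk W.toAffine) e2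
  rw [map_add, map_one] at e3
  exact e3

theorem coprime {P Q : W.toAffine.Point} (hP : P ≠ 0) (hQ : Q ≠ 0) (h : P ≠ Q) : IsCoprime (IP P) (IP Q) := by
  by_cases hx : cx P = cx Q
  · have hy : cy P ≠ cy Q := fun hy => h (ext_coord hP hQ hx hy)
    refine cop_aux (Y_mem P) (Y_mem Q) (c := cy Q - cy P) (sub_ne_zero.2 (Ne.symm hy)) ?_
    rw [C_sub, C_sub]
    ring
  · refine cop_aux (X_mem P) (X_mem Q) (c := cx Q - cx P) (sub_ne_zero.2 (Ne.symm hx)) ?_
    rw [← C_sub]
    congr 1
    rw [C_sub]
    ring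

theorem toA_basis (g : RR W) :
    toA g = g.re • (1 : AA W) + g.im • CoordinateRing.mk W.toAffine Y := by
  rw [CoordinateRing.smul, CoordinateRing.smul, mul_one]
  unfold toA toP
  rw [map_add, map_mul]

theorem norm_toA (g : RR W) : (Algebra.norm K[X] (toA g)).degree = wt g := by
  rw [toA_basis, CoordinateRing.degree_norm_smul_basis, wt_eq]

theorem eqn {P : W.toAffine.Point} (hP : P ≠ 0) : (W.toAffine.polynomial.eval (C (cy P))).eval (cx P) = 0 := by
  obtain ⟨h, -⟩ := exists_some hP
  exact h.1

/-- the residue field at a point -/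
noncomputable def quoE {P : W.toAffine.Point} (hP : P ≠ 0) : (AA W ⧸ IP P) ≃ₐ[K] K :=
  CoordinateRing.quotientXYIdealEquiv (eqn hP)

theorem fin_quo {P : W.toAffine.Point} (hP : P ≠ 0) : Module.Finite K (AA W ⧸ IP P) :=
  Module.Finite.equiv (quoE hP).symm.toLinearEquiv

theorem rank_quo {P : W.toAffine.Point} (hP : P ≠ 0) : Module.finrank K (AA W ⧸ IP P) = 1 := by
  rw [(quoE hP).toLinearEquiv.finrank_eq, Module.finrank_self]

/-- the product of the ideals of the zeros is the principal ideal -/
theorem prod_eq (g : RR W) (s : Finset W.toAffine.Point) (h0 : ∀ P ∈ s, P ≠ 0) (hg : ∀ P ∈ s, gv g P = 0)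
    (hw : wt g = s.card) (hs : 0 < s.card) : ∏ P ∈ s, IP P = Ideal.span {toA g} := by
  classical
  have hpw : (s : Set W.toAffine.Point).Pairwise (Function.onFun IsCoprime IP) := fun P hP Q hQ hne =>
    coprime (h0 P hP) (h0 Q hQ) hne
  have hA0 : toA g ≠ 0 := by
    intro h
    have hfin : Module.Finite K[X] (AA W) := Module.Finite.of_basis (CoordinateRing.basis W.toAffine)
    have h1 := norm_toA g
    rw [h, Algebra.norm_zero, degree_zero, hw] at h1
    exact absurd h1.symm (WithBot.coe_ne_bot)
  have hr : Module.finrank K (AA W ⧸ Ideal.span {toA g}) = s.card := by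
    rw [finrank_quotient_span_eq_natDegree_norm (CoordinateRing.basis W.toAffine) hA0]
    exact natDegree_eq_of_degree_eq_some ((norm_toA g).trans hw)
  rw [Ideal.prod_eq_iInf_of_pairwise_isCoprime hpw]
  apply le_antisymm
  · let J : {P // P ∈ s} → Ideal (AA W) := fun i => IP i.1
    have hJ : Pairwise (Function.onFun IsCoprime J) := fun i j hij =>
      coprime (h0 i.1 i.2) (h0 j.1 j.2) (fun h => hij (Subtype.ext h))
    let f : AA W →ₗ[AA W] (∀ i, AA W ⧸ J i) := LinearMap.pi fun i => (J i).mkQ
    have hf : Function.Surjective f := Ideal.pi_mkQ_surjective hJ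
    have hker : Ideal.span {toA g} ≤ LinearMap.ker f := by
      rw [Ideal.span_le, Set.singleton_subset_iff, SetLike.mem_coe, LinearMap.mem_ker]
      funext i
      exact (Submodule.Quotient.mk_eq_zero (J i)).2 (toA_mem (hg i.1 i.2))
    let f' : (AA W ⧸ Ideal.span {toA g}) →ₗ[AA W] (∀ i, AA W ⧸ J i) := Submodule.liftQ _ f hker
    have hf' : Function.Surjective f' := by
      intro y
      obtain ⟨a, ha⟩ := hf y
      exact ⟨Submodule.Quotient.mk a, ha⟩
    have : ∀ i, Module.Finite K (AA W ⧸ J i) := fun i => fin_quo (h0 i.1 i.2)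
    have : FiniteDimensional K (AA W ⧸ Ideal.span {toA g}) :=
      Module.finite_of_finrank_pos (by rw [hr]; exact hs)
    have hrk : Module.finrank K (AA W ⧸ Ideal.span {toA g}) = Module.finrank K (∀ i, AA W ⧸ J i) := by
      rw [hr, Module.finrank_pi_fintype]
      have h1 : ∀ i, Module.finrank K (AA W ⧸ J i) = 1 := fun i => rank_quo (h0 i.1 i.2)
      simp only [h1, Finset.sum_const, Finset.card_univ, Fintype.card_coe, smul_eq_mul, mul_one]
    have hinj : Function.Injective (f'.restrictScalars K) :=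
      (LinearMap.injective_iff_surjective_of_finrank_eq_finrank hrk).2 hf'
    intro a ha
    have h1 : f' (Submodule.Quotient.mk a) = 0 := by
      funext i
      refine (Submodule.Quotient.mk_eq_zero (J i)).2 ?_
      exact (Submodule.mem_iInf _).1 ((Submodule.mem_iInf _).1 ha i.1) i.2
    have h2 : (Submodule.Quotient.mk a : AA W ⧸ Ideal.span {toA g}) = 0 := hinj (by
      rw [map_zero]
      exact h1)
    exact (Submodule.Quotient.mk_eq_zero _).1 h2
  · rw [Ideal.span_le, Set.singleton_subset_iff, SetLike.mem_coe]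
    exact (Submodule.mem_iInf _).2 fun P => (Submodule.mem_iInf _).2 fun hP => toA_mem (hg P hP)

theorem exists_unit (P : W.toAffine.Point) (hP : P ≠ 0) :
    ∃ U : (FractionalIdeal (nonZeroDivisors (AA W)) W.toAffine.FunctionField)ˣ,
      (U : FractionalIdeal (nonZeroDivisors (AA W)) W.toAffine.FunctionField) = (IP P : Ideal (AA W)) ∧
      ∀ [DecidableEq K], Affine.Point.toClass P = Additive.ofMul (ClassGroup.mk W.toAffine.FunctionField U) := by
  obtain ⟨h, e⟩ := exists_some hP
  refine ⟨CoordinateRing.XYIdeal' (W := W.toAffine) h, CoordinateRing.XYIdeal'_eq h, ?_⟩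
  intro _
  conv_lhs => rw [e]
  exact Affine.Point.toClass_some h

/-- the zeros of a function (all simple) add up to zero -/
theorem abel [DecidableEq K] (g : RR W) (s : Finset W.toAffine.Point) (h0 : ∀ P ∈ s, P ≠ 0) (hg : ∀ P ∈ s, gv g P = 0)
    (hw : wt g = s.card) : ∑ P ∈ s, P = 0 := by
  classical
  rcases Nat.eq_zero_or_pos s.card with hs | hs
  · rw [Finset.card_eq_zero.1 hs, Finset.sum_empty]
  have hprod := prod_eq g s h0 hg hw hs
  have hA0 : toA g ≠ 0 := by
    intro h
    have hfin : Module.Finite K[X] (AA W) := Module.Finite.of_basis (CoordinateRing.basis W.toAffine)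
    have h1 := norm_toA g
    rw [h, Algebra.norm_zero, degree_zero, hw] at h1
    exact absurd h1.symm (WithBot.coe_ne_bot)
  let U : W.toAffine.Point → (FractionalIdeal (nonZeroDivisors (AA W)) W.toAffine.FunctionField)ˣ :=
    fun P => if hP : P ≠ 0 then (exists_unit P hP).choose else 1
  have hU1 : ∀ P ∈ s, (U P : FractionalIdeal (nonZeroDivisors (AA W)) W.toAffine.FunctionField) = (IP P : Ideal (AA W)) := by
    intro P hP
    have e : U P = (exists_unit P (h0 P hP)).choose := dif_pos (h0 P hP)
    rw [e]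
    exact (exists_unit P (h0 P hP)).choose_spec.1
  have hU2 : ∀ P ∈ s, Affine.Point.toClass P = Additive.ofMul (ClassGroup.mk W.toAffine.FunctionField (U P)) := by
    intro P hP
    have e : U P = (exists_unit P (h0 P hP)).choose := dif_pos (h0 P hP)
    rw [e]
    exact (exists_unit P (h0 P hP)).choose_spec.2
  apply Affine.Point.toClass_injective
  rw [map_zero, map_sum, Finset.sum_congr rfl hU2, ← ofMul_prod, ← map_prod]
  have h1 : ((∏ P ∈ s, U P : (FractionalIdeal (nonZeroDivisors (AA W)) W.toAffine.FunctionField)ˣ) :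
      FractionalIdeal (nonZeroDivisors (AA W)) W.toAffine.FunctionField) = (Ideal.span {toA g} : Ideal (AA W)) := by
    rw [Units.coe_prod, Finset.prod_congr rfl hU1, ← hprod]
    exact (map_prod (FractionalIdeal.coeIdealHom (nonZeroDivisors (AA W)) W.toAffine.FunctionField) _ _).symm
  have h2 := (ClassGroup.mk_eq_one_of_coe_ideal h1).2 ⟨toA g, hA0, rfl⟩
  exact congrArg Additive.ofMul h2

end Pool.Agent.H69.NP
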