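import Pool.Agent.H65.NU.Defs

set_option autoImplicit false

/-!
# Boolean combinations of sets in `Σ₂`
-/

namespace Pool.Agent.H69.NP

open Pool.Agent.H88.RO Pool.Agent.H65.NU

/-- The set is a Boolean combination of sets in `Σ₂` relative to `O`: the smallest class which
contains `Σ₂` and is closed under complements and intersections. -/
inductive BC (O : List Bool → Bool) : Set (List Bool) → Prop
  | sigma {L : Set (List Bool)} : InSigma2 O L → BC O L
  | compl {L : Set (List Bool)} : BC O L → BC O Lᶜ
  | inter {L M : Set (List Bool)} : BC O L → BC O M → BC O (L ∩ M)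

end Pool.Agent.H69.NP
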