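import Pool.Agent.H69.NL.Defs

set_option autoImplicit false

/-!
# Closure properties of `Π₂`
-/

namespace Pool.Agent.H69.NP

open Pool.Agent.H88.RO Pool.Agent.H88.RO.Tr Pool.Agent.H65.TS Pool.Agent.H65.NU
open Pool.Agent.H69.NL
open Pool.Agent.H40.EL (andT andT_spec FP.andT')

variable {O : List Bool → Bool}

theorem inPi2_of_form {L : Set (List Bool)} {Q : List Bool → List Bool → Bool}
    {p q : Polynomial ℕ} (hQ : PolyTimeRel O Q)
    (h : ∀ x, x ∈ L ↔ ∀ u : List Bool, u.length ≤ p.eval x.length →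
      ∃ v : List Bool, v.length ≤ q.eval (pr x u).length ∧ Q (pr x u) v = true) :
    InPi2 O L := by
  refine ⟨{z | ∃ v : List Bool, v.length ≤ q.eval z.length ∧ Q z v = true}ᶜ, p,
    ⟨Q, q, hQ, fun z => by rw [compl_compl]; exact Iff.rfl⟩, fun x => ?_⟩
  rw [Set.mem_compl_iff, h x]
  push Not
  constructor
  · rintro ⟨u, h1, h2⟩
    refine ⟨u, h1, ?_⟩
    rintro ⟨v, h3, h4⟩
    exact h2 v h3 h4
  · rintro ⟨u, h1, h2⟩
    exact ⟨u, h1, fun v h3 h4 => h2 ⟨v, h3, h4⟩⟩

theorem inPi2_univ : InPi2 O Set.univ := by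
  refine inPi2_of_form (Q := fun _ _ => true) (p := 0) (q := 0) ?_ (fun x => ?_)
  · exact polyTimeRel_of_FP (FP.const' tt) (fun x y => by simp)
  · simp only [Set.mem_univ, true_iff]
    exact fun u _ => ⟨[], by simp, trivial⟩

theorem inPi2_empty : InPi2 O ∅ := by
  refine inPi2_of_form (Q := fun _ _ => false) (p := 0) (q := 0) ?_ (fun x => ?_)
  · exact polyTimeRel_of_FP (FP.const' leaf) (fun x y => by simp)
  · simp only [Set.mem_empty_iff_false, false_iff]
    intro h
    obtain ⟨v, _, hv⟩ := h [] (by simp)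
    exact absurd hv (by simp)

/-- the two sets in normal form -/
theorem inPi2_pair {A B L : Set (List Bool)} (hA : InPi2 O A) (hB : InPi2 O B) (conj : Bool)
    (hL : ∀ x, x ∈ L ↔ if conj then x ∈ A ∧ x ∈ B else x ∈ A ∨ x ∈ B) : InPi2 O L := by
  classical
  obtain ⟨QA, pA, qA, hQA, hA⟩ := pi2_form hA
  obtain ⟨QB, pB, qB, hQB, hB⟩ := pi2_form hB
  obtain ⟨PpA, hpA1, hpA2⟩ := exists_polyT pA
  obtain ⟨PpB, hpB1, hpB2⟩ := exists_polyT pB
  obtain ⟨PqA, hqA1, hqA2⟩ := exists_polyT qA
  obtain ⟨PqB, hqB1, hqB2⟩ := exists_polyT qB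
  let SA : List Bool → List Bool → List Bool → Prop := fun x u v =>
    v.length ≤ qA.eval (pr x u).length ∧ QA (pr x u) v = true
  let SB : List Bool → List Bool → List Bool → Prop := fun x u v =>
    v.length ≤ qB.eval (pr x u).length ∧ QB (pr x u) v = true
  let ok : List Bool → List Bool → Prop := fun x u =>
    (un1 u).length ≤ pA.eval x.length ∧ (un2 u).length ≤ pB.eval x.length
  let K : List Bool → List Bool → List Bool → Prop := fun x u v =>
    ok x u → if conj then SA x (un1 u) (un1 v) ∧ SB x (un2 u) (un2 v)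
      else SA x (un1 u) v ∨ SB x (un2 u) v
  let Q : List Bool → List Bool → Bool := fun z v => decide (K (un1 z) (un2 z) v)
  have hQ : PolyTimeRel O Q := by
    have hz : FP O (fun v => fst v) := FP.fst' FP.id'
    have hv : FP O (fun v => snd v) := FP.snd' FP.id'
    have hx := FP.un1T' hz
    have hu := FP.un2T' hz
    have hu1 := FP.un1T' hu
    have hu2 := FP.un2T' hu
    have hok : FP O (fun v => andT (cs (dropU (PpA (un1T (fst v))) (un1T (un2T (fst v)))) tt leaf)
        (cs (dropU (PpB (un1T (fst v))) (un2T (un2T (fst v)))) tt leaf)) :=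
      FP.andT' (FP.cs' (FP.dropU' (hpA2 _ _ hx) hu1) (FP.const' tt) FP.leaf')
        (FP.cs' (FP.dropU' (hpB2 _ _ hx) hu2) (FP.const' tt) FP.leaf')
    have hokspec : ∀ z v : List Bool, (fun v => andT
        (cs (dropU (PpA (un1T (fst v))) (un1T (un2T (fst v)))) tt leaf)
        (cs (dropU (PpB (un1T (fst v))) (un2T (un2T (fst v)))) tt leaf))
        (node (enc z) (enc v)) ≠ leaf ↔ ok (un1 z) (un2 z) := by
      intro z v
      simp only [fst_node, un1T_enc, un2T_enc]
      rw [andT_spec]
      refine and_congr ?_ ?_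
      · by_cases h : (un1 (un2 z)).length ≤ pA.eval (un1 z).length
        · rw [cs_pos _ _ (by rw [dropU_eq_leaf, hpA1, len_num, len_enc, len_enc]; exact h)]
          simp [h]
        · rw [cs_neg _ _ (by rw [ne_eq, dropU_eq_leaf, hpA1, len_num, len_enc, len_enc]; exact h)]
          simp [h]
      · by_cases h : (un2 (un2 z)).length ≤ pB.eval (un1 z).length
        · rw [cs_pos _ _ (by rw [dropU_eq_leaf, hpB1, len_num, len_enc, len_enc]; exact h)]
          simp [h]
        · rw [cs_neg _ _ (by rw [ne_eq, dropU_eq_leaf, hpB1, len_num, len_enc, len_enc]; exact h)]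
          simp [h]
    have key : ∀ (G : Tr → Tr), FP O G → (∀ z v : List Bool, G (node (enc z) (enc v)) ≠ leaf ↔
        (if conj then SA (un1 z) (un1 (un2 z)) (un1 v) ∧ SB (un1 z) (un2 (un2 z)) (un2 v)
          else SA (un1 z) (un1 (un2 z)) v ∨ SB (un1 z) (un2 (un2 z)) v)) → PolyTimeRel O Q := by
      intro G hG hG'
      refine polyTimeRel_of_FP (FP.cs' hok (FP.const' tt) hG) (fun z v => ?_)
      have e : (Q z v = true) = K (un1 z) (un2 z) v := by simp only [Q, decide_eq_true_eq]
      rw [e]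
      have h1 := hokspec z v
      have h2 := hG' z v
      by_cases h3 : ok (un1 z) (un2 z)
      · rw [cs_neg _ _ (h1.mpr h3), h2]
        exact ⟨fun h _ => h, fun h => h h3⟩
      · rw [cs_pos _ _ (by
          by_contra h4
          exact h3 (h1.mp h4))]
        exact ⟨fun _ h => absurd h h3, fun _ => tt_ne⟩
    cases conj with
    | true =>
      refine key (fun v => andT (qT QA PqA (prT (un1T (fst v)) (un1T (un2T (fst v)))) (un1T (snd v)))
        (qT QB PqB (prT (un1T (fst v)) (un2T (un2T (fst v)))) (un2T (snd v)))) ?_ (fun z v => ?_)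
      · exact FP.andT' (FP.qT' hQA (hqA2 O) (FP.prT' hx hu1) (FP.un1T' hv))
          (FP.qT' hQB (hqB2 O) (FP.prT' hx hu2) (FP.un2T' hv))
      · simp only [fst_node, snd_node, un1T_enc, un2T_enc, prT_enc, if_true]
        rw [andT_spec, qT_spec hqA1, qT_spec hqB1, dec_enc, dec_enc, dec_enc, dec_enc]
    | false =>
      refine key (fun v => cs (qT QA PqA (prT (un1T (fst v)) (un1T (un2T (fst v)))) (snd v))
        (qT QB PqB (prT (un1T (fst v)) (un2T (un2T (fst v)))) (snd v)) tt) ?_ (fun z v => ?_)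
      · exact FP.cs' (FP.qT' hQA (hqA2 O) (FP.prT' hx hu1) hv)
          (FP.qT' hQB (hqB2 O) (FP.prT' hx hu2) hv) (FP.const' tt)
      · simp only [fst_node, snd_node, un1T_enc, un2T_enc, prT_enc, if_false, Bool.false_eq_true]
        have h1 : ∀ a b : Tr, cs a b tt ≠ leaf ↔ a ≠ leaf ∨ b ≠ leaf := by
          intro a b
          by_cases h : a = leaf
          · rw [cs_pos _ _ h]
            simp [h]
          · rw [cs_neg _ _ h]
            simp [h]
        rw [h1, qT_spec hqA1, qT_spec hqB1, dec_enc, dec_enc, dec_enc]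
  -- lengths
  have hl1 : ∀ x u : List Bool, (pr x (un1 u)).length ≤ (pr x u).length := by
    intro x u
    rw [pr_length, pr_length]
    have := un1_length u
    omega
  have hl2 : ∀ x u : List Bool, (pr x (un2 u)).length ≤ (pr x u).length := by
    intro x u
    rw [pr_length, pr_length]
    have := un2_length u
    omega
  refine inPi2_of_form (Q := Q) (p := 2 * pA + 1 + pB) (q := 2 * qA + 1 + qB) hQ (fun x => ?_)
  have hp : ∀ n : ℕ, (2 * pA + 1 + pB : Polynomial ℕ).eval n = 2 * pA.eval n + 1 + pB.eval n :=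
    fun n => by simp
  have hq : ∀ n : ℕ, (2 * qA + 1 + qB : Polynomial ℕ).eval n = 2 * qA.eval n + 1 + qB.eval n :=
    fun n => by simp
  rw [hL]
  simp only [hp, hq]
  constructor
  · intro h u hu
    by_cases h1 : ok x u
    · cases conj with
      | true =>
        obtain ⟨v1, hv1, hv1'⟩ := (hA x).mp h.1 _ h1.1
        obtain ⟨v2, hv2, hv2'⟩ := (hB x).mp h.2 _ h1.2
        have h2 := hv1.trans (poly_mono qA (hl1 x u))
        have h3 := hv2.trans (poly_mono qB (hl2 x u))
        refine ⟨pr v1 v2, by rw [pr_length]; omega, ?_⟩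
        simp only [Q, K, decide_eq_true_eq, un1_pr, un2_pr, if_true]
        exact fun _ => ⟨⟨hv1, hv1'⟩, ⟨hv2, hv2'⟩⟩
      | false =>
        simp only [Bool.false_eq_true, if_false] at h
        rcases h with h | h
        · obtain ⟨v1, hv1, hv1'⟩ := (hA x).mp h _ h1.1
          have h2 := hv1.trans (poly_mono qA (hl1 x u))
          refine ⟨v1, by omega, ?_⟩
          simp only [Q, K, decide_eq_true_eq, un1_pr, un2_pr, if_false, Bool.false_eq_true]
          exact fun _ => Or.inl ⟨hv1, hv1'⟩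
        · obtain ⟨v2, hv2, hv2'⟩ := (hB x).mp h _ h1.2
          have h3 := hv2.trans (poly_mono qB (hl2 x u))
          refine ⟨v2, by omega, ?_⟩
          simp only [Q, K, decide_eq_true_eq, un1_pr, un2_pr, if_false, Bool.false_eq_true]
          exact fun _ => Or.inr ⟨hv2, hv2'⟩
    · refine ⟨[], by simp, ?_⟩
      simp only [Q, K, decide_eq_true_eq, un1_pr, un2_pr]
      exact fun h2 => absurd h2 h1
  · intro h
    -- the answers for pairs
    have h' : ∀ u1 u2 : List Bool, u1.length ≤ pA.eval x.length → u2.length ≤ pB.eval x.length →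
        if conj then (∃ v, SA x u1 v) ∧ (∃ v, SB x u2 v) else (∃ v, SA x u1 v) ∨ ∃ v, SB x u2 v := by
      intro u1 u2 h1 h2
      obtain ⟨v, _, hv⟩ := h (pr u1 u2) (by rw [pr_length]; omega)
      simp only [Q, K, decide_eq_true_eq, un1_pr, un2_pr] at hv
      have h3 := hv (by simp only [ok, un1_pr, un2_pr]; exact ⟨h1, h2⟩)
      cases conj with
      | true =>
        simp only [if_true] at h3 ⊢
        exact ⟨⟨_, h3.1⟩, ⟨_, h3.2⟩⟩
      | false =>
        simp only [if_false, Bool.false_eq_true] at h3 ⊢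
        rcases h3 with h3 | h3
        · exact Or.inl ⟨_, h3⟩
        · exact Or.inr ⟨_, h3⟩
    cases conj with
    | true =>
      simp only [if_true] at h' ⊢
      exact ⟨(hA x).mpr (fun u hu => (h' u [] hu (by simp)).1),
        (hB x).mpr (fun u hu => (h' [] u (by simp) hu).2)⟩
    | false =>
      simp only [if_false, Bool.false_eq_true] at h' ⊢
      by_contra h1
      push Not at h1
      obtain ⟨h2, h3⟩ := h1
      rw [hA] at h2
      rw [hB] at h3
      push Not at h2 h3
      obtain ⟨u1, hu1, h2⟩ := h2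
      obtain ⟨u2, hu2, h3⟩ := h3
      rcases h' u1 u2 hu1 hu2 with ⟨v, hv⟩ | ⟨v, hv⟩
      · exact h2 v hv.1 hv.2
      · exact h3 v hv.1 hv.2

theorem inPi2_inter {A B : Set (List Bool)} (hA : InPi2 O A) (hB : InPi2 O B) :
    InPi2 O (A ∩ B) := inPi2_pair hA hB true (fun _ => by simp)

theorem inPi2_union {A B : Set (List Bool)} (hA : InPi2 O A) (hB : InPi2 O B) :
    InPi2 O (A ∪ B) := inPi2_pair hA hB false (fun _ => by simp)

end Pool.Agent.H69.NP
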