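import Pool.Agent.H69.NP.Next

set_option autoImplicit false

/-!
# The step lemma
-/

namespace Pool.Agent.H69.NP

open Pool.Agent.H88.RO Pool.Agent.H88.RO.Tr Pool.Agent.H65.TS Pool.Agent.H65.NU
open Pool.Agent.H69.NL hiding N1 N2 N1_le_N2
open Pool.Agent.H40.EL (U_mono andT andT_spec FP.andT' exists_pow_bound' lam lam_bounds lamT
  lamT_eq FP.lamT' sqT sqT_spec FP.sqT' lpT lpT_eq FP.lpT' lgT lgT_eq FP.lgT')

variable {O : List Bool → Bool}

/-- The membership of `1^n` in the universal set is given by the parity of the last of the nested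
sets `R 0 ⊇ R 1 ⊇ ...` in `Π₂` which contains `1^n`. -/
structure Par (Y : Sys O) (R : ℕ → Set (List Bool)) : Prop where
  pi2 : ∀ r, InPi2 O (R r)
  zero : R 0 = Set.univ
  anti : ∀ r, R (r + 1) ⊆ R r
  iff : ∀ n, Y.d n = true → ∀ r, ones n ∈ R r → ones n ∉ R (r + 1) →
    (ones n ∈ Y.LU ↔ Even r)

/-- the sets without the first two -/
def drp (R : ℕ → Set (List Bool)) (r : ℕ) : Set (List Bool) :=
  if r = 0 then Set.univ else R (r + 2)

theorem blk_of_cn {Y : Sys O} {l : List ℕ} {c n : ℕ} (h : Cn Y l c n) (i : ℕ)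
    (hi : i < l.length) : blk i (Y.nm n) = l.getD i 0 := h.2.1 i hi

/-- **The step lemma.** -/
theorem step {Y : Sys O} {R : ℕ → Set (List Bool)} (h : Par Y R) {T : TFNP O}
    (hT : T.IsComplete) : ∃ Y' : Sys O, Par Y' (drp R) := by
  obtain ⟨Q1, p1, q1, hQ1, hR1⟩ := pi2_form (h.pi2 1)
  obtain ⟨Q2, p2, q2, hQ2, hR2⟩ := pi2_form (h.pi2 2)
  have hR1' : ∀ n, ones n ∈ R 1 ↔ ∀ u : List Bool, u.length ≤ p1.eval n →
      ∃ v, Sol Q1 q1 n u v := by
    intro n
    have := hR1 (ones n)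
    rw [ones_length] at this
    exact this
  have hR2' : ∀ n, ones n ∈ R 2 ↔ ∀ u : List Bool, u.length ≤ p2.eval n →
      ∃ v, Sol Q2 q2 n u v := by
    intro n
    have := hR2 (ones n)
    rw [ones_length] at this
    exact this
  let D1 : Prb Y := prb1 Y hQ1 p1 q1
  let D2 : Prb Y := prb2 Y T D1 rfl hQ2 p2 q2
  -- the program
  obtain ⟨gT, hg, hg'⟩ := exists_gT Y
  obtain ⟨cT, hcc, hcc'⟩ := D2.exists_coreT T 1
  obtain ⟨nT, hn, hn'⟩ := Y.exists_nT 3
  let V : Tr → Tr := fun v => cs (andT (nT (fst v) (fst (parseT (snd v))))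
    (cT (fst v) (fst (parseT (snd v))) (fst (snd (parseT (snd v)))))) (gT (fst v) (snd v)) tt
  have hV : FP O V := by
    have h1 : FP O (fun v => fst v) := FP.fst' FP.id'
    have h2 : FP O (fun v => snd v) := FP.snd' FP.id'
    have h3 := FP.fst' (FP.parseT' h2)
    exact FP.cs' (FP.andT' (hn h1 h3) (hcc h1 h3 (FP.fst' (FP.snd' (FP.parseT' h2)))))
      (hg h1 h2) (FP.const' tt)
  have hVs : ∀ (n : ℕ) (w : List Bool), V (node (enc (ones n)) (enc w)) ≠ leaf ↔
      ((prs w).1 = N Y.a 3 n ∧ D2.Core T 1 n (prs w).2) ∨ GE Y n w := by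
    intro n w
    simp only [V, fst_node, snd_node, fst_parseT, snd_parseT]
    rw [or_spec, andT_spec, hn', hg', len_num, len_enc, ones_length]
    refine or_congr (and_congr_right fun h1 => ?_) Iff.rfl
    exact hcc' n _ _ (by rw [len_num]; exact h1)
  obtain ⟨e, c, hec⟩ := Y.LU_iff hV (3 * Polynomial.X + 1 + D2.cB T)
  have hiff : ∀ n, Cn Y [e] c n →
      (ones n ∈ Y.LU ↔ (∃ y, D2.Core T 1 n y) ∨ ∃ y, GE Y n y) := by
    intro n hn1
    rw [hec n hn1.1 (blk_of_cn hn1 0 (by simp)) hn1.2.2]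
    · constructor
      · rintro ⟨w, hw⟩
        rcases (hVs n w).mp hw with h1 | h1
        · exact Or.inl ⟨_, h1.2⟩
        · exact Or.inr ⟨_, h1⟩
      · rintro (⟨y, hy⟩ | ⟨y, hy⟩)
        · refine ⟨List.replicate (N Y.a 3 n) true ++ false :: y, (hVs n _).mpr (Or.inl ?_)⟩
          rw [prs_ones]
          exact ⟨rfl, hy⟩
        · exact ⟨y, (hVs n _).mpr (Or.inr hy)⟩
    · intro w hw
      have h2 : (3 * Polynomial.X + 1 + D2.cB T : Polynomial ℕ).eval (N Y.a 3 n) =
          3 * N Y.a 3 n + 1 + (D2.cB T).eval (N Y.a 3 n) := by simp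
      rw [h2]
      rcases (hVs n w).mp hw with h1 | h1
      · have h3 := length_le_prs w
        have h4 := D2.core_length h1.2
        have h5 := h1.1
        have e1 : D2.c + 1 = 3 := rfl
        rw [e1] at h4
        omega
      · have h3 := h1.length 3 (by norm_num)
        omega
  -- the second problem is total
  have htot2 : ∀ n, Cn Y [e] c n → ∀ u : List Bool, u.length ≤ D2.p.eval n →
      ∃ y, D2.P n u y := by
    intro n hn1 u hu
    by_contra h1
    push Not at h1
    have h2 : ∀ y, ¬ D1.Core T 3 n y := fun y hy => h1 y (Or.inl hy)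
    have h3 : ∀ y, ¬ GE Y n y := fun y hy => h1 y (Or.inr (Or.inr hy))
    have h4 : ones n ∈ R 1 := by
      rw [hR1']
      intro u' hu'
      obtain ⟨v, hv⟩ := D1.sol_of_not_core h2 u' hu'
      rcases hv with hv | hv
      · exact ⟨v, hv⟩
      · exact absurd hv (h3 v)
    have h5 : ones n ∉ R 2 := by
      rw [hR2']
      intro h6
      obtain ⟨v, hv⟩ := h6 u hu
      exact h1 v (Or.inr (Or.inl hv))
    have h6 : ones n ∉ Y.LU := by
      rw [h.iff n hn1.1 1 h4 h5]
      decide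
    rw [hiff n hn1] at h6
    push Not at h6
    obtain ⟨v, hv⟩ := D2.sol_of_not_core h6.1 u hu
    exact h1 v hv
  obtain ⟨c1T, hc1, hc1'⟩ := exists_cnT Y [e] c
  obtain ⟨S2, hS2⟩ := D2.exists_tfnp (Cn Y [e] c) c1T hc1 hc1' htot2
  obtain ⟨i1, i2, K2, hK2⟩ := D2.not_core 1 (hT S2) hS2
  have hiff2 : ∀ n, Cn Y [e, i1, i2] (max c K2) n → (ones n ∈ Y.LU ↔ ∃ y, GE Y n y) := by
    intro n hn1
    have h1 : Cn Y [e] c n := Cn.mono (l' := [i1, i2]) hn1 (le_max_left _ _)
    rw [hiff n h1, or_iff_right]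
    rintro ⟨y, hy⟩
    exact hK2 n h1 ((le_max_right _ _).trans hn1.2.2) (blk_of_cn hn1 1 (by simp))
      (blk_of_cn hn1 2 (by simp)) y hy
  -- the first problem is total
  have htot1 : ∀ n, Cn Y [e, i1, i2] (max c K2) n → ∀ u : List Bool, u.length ≤ D1.p.eval n →
      ∃ y, D1.P n u y := by
    intro n hn1 u hu
    by_contra h1
    push Not at h1
    have h4 : ones n ∉ R 1 := by
      rw [hR1']
      intro h6
      obtain ⟨v, hv⟩ := h6 u hu
      exact h1 v (Or.inl hv)
    have h5 : ones n ∈ Y.LU := by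
      rw [h.iff n hn1.1 0 (by rw [h.zero]; trivial) h4]
      decide
    rw [hiff2 n hn1] at h5
    obtain ⟨y, hy⟩ := h5
    exact h1 y (Or.inr hy)
  obtain ⟨c2T, hc2, hc2'⟩ := exists_cnT Y [e, i1, i2] (max c K2)
  obtain ⟨S1, hS1⟩ := D1.exists_tfnp (Cn Y [e, i1, i2] (max c K2)) c2T hc2 hc2' htot1
  obtain ⟨j1, j2, K1, hK1⟩ := D1.not_core 3 (hT S1) hS1
  obtain ⟨Y', hY1, hY2, hY3⟩ := exists_next Y e i1 i2 j1 j2 (max (max c K2) K1)
  -- the universal set of the new system
  have hLU : ∀ n, Y'.d n = true → (ones n ∈ Y'.LU ↔ ones n ∈ Y.LU) := by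
    intro n hn1
    have hn2 := (hY1 n).mp hn1
    have h1 : Cn Y [e, i1, i2] (max c K2) n := Cn.mono (l' := [j1, j2]) hn2 (le_max_left _ _)
    rw [hiff2 n h1, Y'.mem_LU, and_iff_right hn1, hY2, hY3, blk_tl]
    have e1 : (n + 2) ^ 2 ^ lam (Y.a n) = N Y.a 1 n := by rw [N, one_mul]
    rw [e1]
    constructor
    · rintro ⟨y, h2, h3⟩
      refine ⟨List.replicate (N Y.a 1 n) true ++ false :: y, ?_⟩
      unfold GE
      rw [prs_ones]
      exact ⟨rfl, h2, h3⟩
    · rintro ⟨y, _, h2, h3⟩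
      exact ⟨_, h2, h3⟩
  refine ⟨Y', ⟨fun r => ?_, by simp [drp], fun r => ?_, fun n hn1 r hr1 hr2 => ?_⟩⟩
  · by_cases hr : r = 0
    · rw [drp, if_pos hr, ← h.zero]
      exact h.pi2 0
    · rw [drp, if_neg hr]
      exact h.pi2 _
  · by_cases hr : r = 0
    · rw [drp, drp, if_pos hr]
      exact Set.subset_univ _
    · rw [drp, drp, if_neg hr, if_neg (Nat.succ_ne_zero r)]
      exact h.anti _
  · have hn2 := (hY1 n).mp hn1
    have hC2 : Cn Y [e, i1, i2] (max c K2) n := Cn.mono (l' := [j1, j2]) hn2 (le_max_left _ _)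
    have hC1 : Cn Y [e] c n := Cn.mono (l' := [i1, i2]) hC2 (le_max_left _ _)
    rw [hLU n hn1]
    rw [drp, if_neg (Nat.succ_ne_zero r)] at hr2
    by_cases hr : r = 0
    · subst hr
      refine ⟨fun _ => ⟨0, rfl⟩, fun _ => ?_⟩
      by_contra h1
      have h2 : ones n ∈ R 2 := by
        rw [hR2']
        intro u hu
        obtain ⟨y, hy⟩ := htot2 n hC1 u hu
        rcases hy with hy | hy | hy
        · exact absurd hy (hK1 n hC2 ((le_max_right _ _).trans hn2.2.2)
            (blk_of_cn hn2 3 (by simp)) (blk_of_cn hn2 4 (by simp)) y)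
        · exact ⟨y, hy⟩
        · exact absurd ((hiff2 n hC2).mpr ⟨y, hy⟩) h1
      have h3 := h.iff n hn2.1 2 h2 hr2
      exact h1 (h3.mpr ⟨1, rfl⟩)
    · rw [drp, if_neg hr] at hr1
      have h3 := h.iff n hn2.1 (r + 2) hr1 (by
        have : r + 2 + 1 = r + 1 + 2 := by ring
        rw [this]
        exact hr2)
      rw [h3, Nat.even_add]
      simp

/-- The nested sets cannot describe the universal set. -/
theorem no_par {T : TFNP O} (hT : T.IsComplete) : ∀ (k : ℕ) (Y : Sys O)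
    (R : ℕ → Set (List Bool)), Par Y R → R (k + 1) = ∅ → False := by
  intro k
  induction k using Nat.strong_induction_on with
  | _ k ih =>
    intro Y R h hk
    rcases Nat.eq_zero_or_pos k with h0 | h0
    · subst h0
      -- a program which never accepts
      obtain ⟨e, c, hec⟩ := Y.LU_iff (V := fun _ => leaf) (FP.const' leaf) 0
      obtain ⟨n, h1, h2, h3⟩ := Y.names (mk [e]) c
      have h4 := hec n h1 (by rw [h2, blk_zero]) h3 (fun w hw => absurd rfl hw)
      have h5 : ones n ∈ Y.LU := by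
        rw [h.iff n h1 0 (by rw [h.zero]; trivial) (by rw [hk]; simp)]
        decide
      obtain ⟨w, hw⟩ := h4.mp h5
      exact hw rfl
    · obtain ⟨Y', hY'⟩ := step h hT
      rcases Nat.lt_or_ge k 3 with h3 | h3
      · refine ih 0 h0 Y' (drp R) hY' ?_
        rw [drp, if_neg (by norm_num)]
        apply Set.eq_empty_of_subset_empty
        rw [← hk]
        have h4 : ∀ i j, R (i + j) ⊆ R i := by
          intro i j
          induction j with
          | zero => exact le_rfl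
          | succ j ih2 => exact (h.anti _).trans ih2
        have h5 : 0 + 1 + 2 = (k + 1) + (2 - k) := by omega
        rw [h5]
        exact h4 _ _
      · refine ih (k - 2) (by omega) Y' (drp R) hY' ?_
        rw [drp, if_neg (by omega), ← hk]
        congr 1
        omega

end Pool.Agent.H69.NP
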