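import Pool.Agent.H69.NP.Norm
import Pool.Agent.H69.NP.Par

set_option autoImplicit false

/-!
# A complete total problem: nondeterministic time is not in the Boolean closure of `Σ₂`
-/

namespace Pool.Agent.H69.NP

open Pool.Agent.H88.RO Pool.Agent.H88.RO.Tr Pool.Agent.H65.TS Pool.Agent.H65.NU
open Pool.Agent.H69.NL hiding N1 N2 N1_le_N2

variable {O : List Bool → Bool}

/-- the system of names of all marked lengths -/
def base {a : ℕ → ℕ} (ha : Slow O a) {d : ℕ → Bool} (hd : Marks O d) : Sys O where
  d := d
  nm := key d
  a := a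
  hd := hd.polyTime
  hnm := polyTimeFun_of_FP (F := fun v => enc (key d (len v))) (FP_key hd.polyTime FP.id')
    (fun x => by rw [len_enc])
  ha := ha.polyTime
  names := exists_large ha hd

/-- If there is a complete total problem then the universal set is not a Boolean combination of
sets in `Σ₂`. -/
theorem main {a : ℕ → ℕ} (ha : Slow O a) {d : ℕ → Bool} (hd : Marks O d) {T : TFNP O}
    (hT : T.IsComplete) : ¬ BC O (base ha hd).LU := by
  intro h
  obtain ⟨k, R, hR⟩ := h.normal
  refine no_par hT k (base ha hd) R ⟨hR.pi2, hR.zero, hR.anti,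
    fun n _ r h1 h2 => hR.iff _ r h1 h2⟩ ?_
  apply Set.eq_empty_of_subset_empty
  rw [← hR.last]
  exact hR.anti k

end Pool.Agent.H69.NP
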