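import Pool.Agent.H69.NP.Step

set_option autoImplicit false

/-!
# The next system of names
-/

namespace Pool.Agent.H69.NP

open Pool.Agent.H88.RO Pool.Agent.H88.RO.Tr Pool.Agent.H65.TS Pool.Agent.H65.NU
open Pool.Agent.H69.NL hiding N1 N2 N1_le_N2
open Pool.Agent.H40.EL (U_mono andT andT_spec FP.andT' exists_pow_bound' lam lam_bounds lamT
  lamT_eq FP.lamT' sqT sqT_spec FP.sqT' lpT lpT_eq FP.lpT' lgT lgT_eq FP.lgT')

variable {O : List Bool → Bool}

/-- the lengths with the name beginning with the numbers in the list, and exponents at least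
`c` -/
def Cn (Y : Sys O) (l : List ℕ) (c n : ℕ) : Prop :=
  Y.d n = true ∧ (∀ i < l.length, blk i (Y.nm n) = l.getD i 0) ∧ c ≤ lam (Y.a n)

theorem exists_cnT (Y : Sys O) (l : List ℕ) (c : ℕ) : ∃ cT : Tr → Tr,
    (∀ {F : Tr → Tr}, FP O F → FP O (fun v => cT (F v))) ∧
    ∀ v, cT v ≠ leaf ↔ Cn Y l c (len v) := by
  obtain ⟨aT, ha1, ha2⟩ := Y.exists_aT
  have h : ∀ m : ℕ, ∃ bT : Tr → Tr, (∀ {F : Tr → Tr}, FP O F → FP O (fun v => bT (F v))) ∧
      ∀ v, bT v ≠ leaf ↔ ∀ i < m, blk i (Y.nm (len v)) = l.getD i 0 := by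
    intro m
    induction m with
    | zero => exact ⟨fun _ => tt, fun _ => FP.const' _, fun v => by simp⟩
    | succ m ih =>
      obtain ⟨bT, h1, h2⟩ := ih
      refine ⟨fun v => andT (bT v) (eqL (blkT m (enc (Y.nm (len v)))) (num (l.getD m 0))),
        fun hF => ?_, fun v => ?_⟩
      · exact FP.andT' (h1 hF) (FP.eqL' (FP.blkT' m (FP.nm' Y.hnm hF)) (FP.const' _))
      · rw [andT_spec, h2, eqL_spec, blkT_enc, len_num, len_num]
        constructor
        · rintro ⟨h3, h4⟩ i hi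
          rcases Nat.lt_succ_iff_lt_or_eq.mp hi with h5 | h5
          · exact h3 i h5
          · rw [h5]; exact h4
        · intro h3
          exact ⟨fun i hi => h3 i (by omega), h3 m (by omega)⟩
  obtain ⟨bT, hb1, hb2⟩ := h l.length
  refine ⟨fun v => andT (bit (Y.d (len v))) (andT (bT v)
    (cs (dropU (lamT (aT v)) (num c)) tt leaf)), fun {F} hF => ?_, fun v => ?_⟩
  · exact FP.andT' (FP.mark Y.hd hF) (FP.andT' (hb1 hF) (FP.cs' (FP.dropU' (FP.lamT' (ha1 hF))
      (FP.const' _)) (FP.const' tt) FP.leaf'))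
  · rw [andT_spec, andT_spec, bit_ne_leaf, hb2, Cn]
    refine and_congr Iff.rfl (and_congr Iff.rfl ?_)
    by_cases h : c ≤ lam (Y.a (len v))
    · rw [cs_pos _ _ (by rw [dropU_eq_leaf, lamT_eq, len_num, len_num, ha2]; exact h)]
      simp [h]
    · rw [cs_neg _ _ (by rw [ne_eq, dropU_eq_leaf, lamT_eq, len_num, len_num, ha2]; exact h)]
      simp [h]

theorem Cn.mono {Y : Sys O} {l l' : List ℕ} {c c' n : ℕ} (h : Cn Y (l ++ l') c' n)
    (hc : c ≤ c') : Cn Y l c n := by
  refine ⟨h.1, fun i hi => ?_, hc.trans h.2.2⟩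
  rw [h.2.1 i (by rw [List.length_append]; omega)]
  rw [List.getD_append _ _ _ _ hi]

theorem lam_two_pow (m : ℕ) : Nat.log 2 m ≤ lam (2 ^ m) := by
  unfold lam
  apply Nat.log_mono_right
  calc m = Nat.log 2 (2 ^ m) := (Nat.log_pow (by norm_num) m).symm
    _ ≤ _ := Nat.log_mono_right (by omega)

/-- The lengths whose name begins with five given numbers; the rest of the name is the new
name. -/
theorem exists_next (Y : Sys O) (e i1 i2 j1 j2 c : ℕ) : ∃ Y' : Sys O,
    (∀ n, Y'.d n = true ↔ Cn Y [e, i1, i2, j1, j2] c n) ∧ (∀ n, Y'.nm n = tl (Y.nm n)) ∧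
    ∀ n, Y'.a n = 2 ^ lam (Y.a n) := by
  classical
  obtain ⟨cT, hc1, hc2⟩ := exists_cnT Y [e, i1, i2, j1, j2] c
  obtain ⟨aT, ha1, ha2⟩ := Y.exists_aT
  refine ⟨⟨fun n => decide (Cn Y [e, i1, i2, j1, j2] c n), fun n => tl (Y.nm n),
    fun n => 2 ^ lam (Y.a n), ?_, ?_, ?_, ?_⟩, fun n => by simp, fun _ => rfl, fun _ => rfl⟩
  · refine polyTimeFun_of_FP (F := fun v => node (cs (cT v) leaf tt) leaf)
      (FP.node' (FP.cs' (hc1 FP.id') FP.leaf' (FP.const' tt)) FP.leaf') (fun x => ?_)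
    have h := hc2 (enc x)
    rw [len_enc] at h
    by_cases h1 : Cn Y [e, i1, i2, j1, j2] c x.length
    · rw [cs_neg _ _ (h.mpr h1), decide_eq_true h1]
      rfl
    · rw [cs_pos _ _ (by
        by_contra h2
        exact h1 (h.mp h2)), decide_eq_false h1]
      rfl
  · refine polyTimeFun_of_FP (F := fun v => tlT (enc (Y.nm (len v))))
      (FP.tlT' (FP.nm' Y.hnm FP.id')) (fun x => ?_)
    rw [tlT_enc, len_enc]
  · refine polyTimeFun_of_FP (F := fun v => onesPre (lpT (lgT (node leaf (node leaf (aT v)))))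
      leaf) (FP.onesPre' (FP.lpT' (FP.lgT' (FP.node' FP.leaf' (FP.node' FP.leaf' (ha1 FP.id')))))
        FP.leaf') (fun x => ?_)
    rw [onesPre_leaf, lpT_eq, lgT_eq, len_num, len_num]
    have h1 : len (node leaf (node leaf (aT (enc x)))) = Y.a x.length + 2 := by
      show len (aT (enc x)) + 1 + 1 = _
      rw [ha2, len_enc]
    rw [h1]
    rfl
  · intro s K
    obtain ⟨n, h1, h2, h3⟩ := Y.names (List.replicate e true ++ false ::
      (List.replicate i1 true ++ false :: (List.replicate i2 true ++ false ::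
      (List.replicate j1 true ++ false :: (List.replicate j2 true ++ false :: s)))))
      (max c (2 ^ K))
    refine ⟨n, ?_, ?_, ?_⟩
    · rw [decide_eq_true_eq]
      refine ⟨h1, fun i hi => ?_, (le_max_left _ _).trans h3⟩
      simp only [List.length_cons, List.length_nil] at hi
      rw [h2]
      interval_cases i <;> simp [blk, prs_ones]
    · rw [h2, tl_cons]
    · have h4 : 2 ^ K ≤ lam (Y.a n) := (le_max_right _ _).trans h3
      calc K = Nat.log 2 (2 ^ K) := (Nat.log_pow (by norm_num) K).symm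
        _ ≤ Nat.log 2 (lam (Y.a n)) := Nat.log_mono_right h4
        _ ≤ _ := lam_two_pow _

end Pool.Agent.H69.NP
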