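import Pool.Agent.H69.NP.Clo
import Pool.Agent.H69.NP.BC

set_option autoImplicit false

/-!
# Normal form of Boolean combinations of sets in `Σ₂`
-/

namespace Pool.Agent.H69.NP

open Pool.Agent.H88.RO Pool.Agent.H65.NU

variable {O : List Bool → Bool}

/-- `L` is given by the parity of the last of finitely many nested sets in `Π₂` -/
structure NF (O : List Bool → Bool) (L : Set (List Bool)) (k : ℕ) (R : ℕ → Set (List Bool)) :
    Prop where
  pi2 : ∀ r, InPi2 O (R r)
  zero : R 0 = Set.univ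
  anti : ∀ r, R (r + 1) ⊆ R r
  last : R k = ∅
  iff : ∀ x r, x ∈ R r → x ∉ R (r + 1) → (x ∈ L ↔ Even r)

theorem anti_le {R : ℕ → Set (List Bool)} (h : ∀ r, R (r + 1) ⊆ R r) {i j : ℕ} (hij : i ≤ j) :
    R j ⊆ R i := by
  obtain ⟨m, rfl⟩ := Nat.exists_eq_add_of_le hij
  induction m with
  | zero => exact le_rfl
  | succ m ih => exact (h _).trans (ih (by omega))

/-- every string has a last index -/
theorem NF.exists_index {L : Set (List Bool)} {k : ℕ} {R : ℕ → Set (List Bool)}
    (h : NF O L k R) (x : List Bool) : ∃ r, r < k ∧ x ∈ R r ∧ x ∉ R (r + 1) ∧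
      ∀ i, x ∈ R i → i ≤ r := by
  classical
  have h1 : ∃ r, x ∉ R r := ⟨k, by rw [h.last]; simp⟩
  have h2 := Nat.find_spec h1
  have h3 : Nat.find h1 ≠ 0 := by
    intro h4
    rw [h4, h.zero] at h2
    exact h2 trivial
  obtain ⟨r, hr⟩ := Nat.exists_eq_succ_of_ne_zero h3
  rw [hr] at h2
  have h5 : x ∈ R r := by
    have := Nat.find_min h1 (m := r) (by omega)
    push Not at this
    exact this
  refine ⟨r, ?_, h5, h2, fun i hi => ?_⟩
  · by_contra h6
    have := anti_le h.anti (show k ≤ r by omega) h5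
    rw [h.last] at this
    exact this
  · by_contra h6
    exact h2 (anti_le h.anti (show r + 1 ≤ i by omega) hi)

theorem NF.sigma {L : Set (List Bool)} (hL : InSigma2 O L) :
    NF O L 2 (fun r => if r = 0 then Set.univ else if r = 1 then Lᶜ else ∅) where
  pi2 := by
    intro r
    split_ifs
    · exact inPi2_univ
    · unfold InPi2
      rw [compl_compl]
      exact hL
    · exact inPi2_empty
  zero := by simp
  anti := by
    intro r x hx
    simp only [Nat.add_eq_zero_iff, one_ne_zero, and_false, if_false] at hx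
    by_cases h1 : r + 1 = 1
    · rw [if_pos (by omega : r = 0)]
      trivial
    · rw [if_neg h1] at hx
      exact hx.elim
  last := by simp
  iff := by
    intro x r h1 h2
    rcases r with _ | _ | r
    · simp only [zero_add, one_ne_zero, if_false, if_true, Set.mem_compl_iff, not_not] at h2
      exact ⟨fun _ => ⟨0, rfl⟩, fun _ => h2⟩
    · simp only [zero_add, one_ne_zero, if_false, if_true, Set.mem_compl_iff] at h1
      exact ⟨fun h => absurd h h1, fun h => absurd h (by decide)⟩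
    · simp at h1

theorem NF.compl {L : Set (List Bool)} {k : ℕ} {R : ℕ → Set (List Bool)} (h : NF O L k R) :
    NF O Lᶜ (k + 1) (fun r => if r = 0 then Set.univ else R (r - 1)) where
  pi2 := by
    intro r
    split_ifs
    · exact inPi2_univ
    · exact h.pi2 _
  zero := by simp
  anti := by
    intro r x hx
    by_cases h1 : r = 0
    · rw [if_pos h1]
      trivial
    · rw [if_neg h1]
      rw [if_neg (Nat.succ_ne_zero r)] at hx
      obtain ⟨m, rfl⟩ := Nat.exists_eq_succ_of_ne_zero h1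
      exact h.anti m hx
  last := by
    rw [if_neg (Nat.succ_ne_zero k)]
    exact h.last
  iff := by
    intro x r h1 h2
    rw [if_neg (Nat.succ_ne_zero r)] at h2
    rcases r with _ | r
    · exact absurd (by rw [Nat.add_sub_cancel, h.zero]; trivial) h2
    · rw [if_neg (Nat.succ_ne_zero r)] at h1
      have := h.iff x r h1 h2
      rw [Set.mem_compl_iff, this, Nat.even_add_one]

/-- monotone in both arguments, and even if and only if both arguments are even -/
def alt (i j : ℕ) : ℕ :=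
  if Even i ∧ Even j then i + j else 2 * ((i + 1) / 2 + (j + 1) / 2) - 1

theorem alt_zero : alt 0 0 = 0 := by simp [alt]

theorem alt_even (i j : ℕ) : Even (alt i j) ↔ Even i ∧ Even j := by
  unfold alt
  split_ifs with h
  · exact ⟨fun _ => h, fun _ => h.1.add h.2⟩
  · refine ⟨fun h1 => absurd h1 ?_, fun h1 => absurd h1 h⟩
    rw [Nat.even_iff]
    simp only [Nat.even_iff] at h
    omega

theorem alt_mono {i i' j j' : ℕ} (hi : i ≤ i') (hj : j ≤ j') : alt i j ≤ alt i' j' := by
  unfold alt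
  simp only [Nat.even_iff]
  split_ifs with h1 h2 h2 <;> omega

/-- finite unions of intersections -/
theorem inPi2_fin {R R' : ℕ → Set (List Bool)} (hR : ∀ r, InPi2 O (R r))
    (hR' : ∀ r, InPi2 O (R' r)) (t : ℕ) (l : List (ℕ × ℕ)) :
    InPi2 O {x | ∃ z ∈ l, t ≤ alt z.1 z.2 ∧ x ∈ R z.1 ∧ x ∈ R' z.2} := by
  induction l with
  | nil =>
    have : {x : List Bool | ∃ z ∈ ([] : List (ℕ × ℕ)), t ≤ alt z.1 z.2 ∧ x ∈ R z.1 ∧
        x ∈ R' z.2} = ∅ := by
      ext x; simp
    rw [this]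
    exact inPi2_empty
  | cons z l ih =>
    by_cases h : t ≤ alt z.1 z.2
    · have : {x : List Bool | ∃ z' ∈ z :: l, t ≤ alt z'.1 z'.2 ∧ x ∈ R z'.1 ∧ x ∈ R' z'.2} =
          (R z.1 ∩ R' z.2) ∪ {x | ∃ z ∈ l, t ≤ alt z.1 z.2 ∧ x ∈ R z.1 ∧ x ∈ R' z.2} := by
        ext x
        simp only [List.mem_cons, exists_eq_or_imp, Set.mem_ofPred_eq, Set.mem_union,
          Set.mem_inter_iff, h, true_and]
      rw [this]
      exact inPi2_union (inPi2_inter (hR _) (hR' _)) ih
    · have : {x : List Bool | ∃ z' ∈ z :: l, t ≤ alt z'.1 z'.2 ∧ x ∈ R z'.1 ∧ x ∈ R' z'.2} =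
          {x | ∃ z ∈ l, t ≤ alt z.1 z.2 ∧ x ∈ R z.1 ∧ x ∈ R' z.2} := by
        ext x
        simp only [List.mem_cons, exists_eq_or_imp, Set.mem_ofPred_eq, h, false_and, false_or]
      rw [this]
      exact ih

theorem NF.inter {L L' : Set (List Bool)} {k k' : ℕ} {R R' : ℕ → Set (List Bool)}
    (h : NF O L k R) (h' : NF O L' k' R') : ∃ (k2 : ℕ) (R2 : ℕ → Set (List Bool)),
      NF O (L ∩ L') k2 R2 := by
  -- all pairs of indices
  let l : List (ℕ × ℕ) := (List.range k).product (List.range k')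
  have hl : ∀ i j, (i, j) ∈ l ↔ i < k ∧ j < k' := by
    intro i j
    simp [l, List.pair_mem_product]
  let R2 : ℕ → Set (List Bool) := fun t => {x | ∃ z ∈ l, t ≤ alt z.1 z.2 ∧ x ∈ R z.1 ∧ x ∈ R' z.2}
  have hmem : ∀ (x : List Bool) (r r' : ℕ), r < k → r' < k' → x ∈ R r → x ∈ R' r' →
      (∀ i, x ∈ R i → i ≤ r) → (∀ i, x ∈ R' i → i ≤ r') → ∀ t, x ∈ R2 t ↔ t ≤ alt r r' := by
    intro x r r' h1 h2 h3 h4 h5 h6 t
    constructor
    · rintro ⟨z, _, h7, h8, h9⟩
      exact h7.trans (alt_mono (h5 _ h8) (h6 _ h9))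
    · intro h7
      exact ⟨(r, r'), (hl _ _).mpr ⟨h1, h2⟩, h7, h3, h4⟩
  refine ⟨alt k k' + 1, R2, ⟨fun r => inPi2_fin h.pi2 h'.pi2 r l, ?_, ?_, ?_, ?_⟩⟩
  · ext x
    obtain ⟨r, h1, h2, _, h3⟩ := h.exists_index x
    obtain ⟨r', h1', h2', _, h3'⟩ := h'.exists_index x
    rw [hmem x r r' h1 h1' h2 h2' h3 h3']
    simp
  · rintro r x ⟨z, h1, h2, h3⟩
    exact ⟨z, h1, by omega, h3⟩
  · ext x
    obtain ⟨r, h1, h2, _, h3⟩ := h.exists_index x
    obtain ⟨r', h1', h2', _, h3'⟩ := h'.exists_index x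
    rw [hmem x r r' h1 h1' h2 h2' h3 h3']
    have := alt_mono h1.le h1'.le
    simp only [Set.mem_empty_iff_false, iff_false]
    omega
  · intro x t h4 h5
    obtain ⟨r, h1, h2, h2n, h3⟩ := h.exists_index x
    obtain ⟨r', h1', h2', h2n', h3'⟩ := h'.exists_index x
    rw [hmem x r r' h1 h1' h2 h2' h3 h3'] at h4 h5
    have h6 : t = alt r r' := by omega
    rw [Set.mem_inter_iff, h.iff x r h2 h2n, h'.iff x r' h2' h2n', h6, alt_even]

/-- **Normal form.** -/
theorem BC.normal {L : Set (List Bool)} (h : BC O L) :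
    ∃ (k : ℕ) (R : ℕ → Set (List Bool)), NF O L k R := by
  induction h with
  | sigma h => exact ⟨_, _, NF.sigma h⟩
  | compl _ ih =>
    obtain ⟨k, R, h⟩ := ih
    exact ⟨_, _, h.compl⟩
  | inter _ _ ih1 ih2 =>
    obtain ⟨k, R, h⟩ := ih1
    obtain ⟨k', R', h'⟩ := ih2
    exact h.inter h'

end Pool.Agent.H69.NP
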