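import Pool.Agent.H69.NP.Sys

set_option autoImplicit false

/-!
# Search problems at the clocks of a system of names, and refutations of reductions
-/

namespace Pool.Agent.H69.NP

open Pool.Agent.H88.RO Pool.Agent.H88.RO.Tr Pool.Agent.H65.TS Pool.Agent.H65.NU
open Pool.Agent.H69.NL hiding N1 N2 N1_le_N2
open Pool.Agent.H40.EL (U_mono andT andT_spec FP.andT' exists_pow_bound' lam lam_bounds lamT
  lamT_eq FP.lamT' sqT sqT_spec FP.sqT')

variable {O : List Bool → Bool} (Y : Sys O)

/-- a program for `1^(a(n))` -/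
theorem Sys.exists_aT : ∃ aT : Tr → Tr, (∀ {F : Tr → Tr}, FP O F → FP O (fun v => aT (F v))) ∧
    ∀ v, len (aT v) = Y.a (len v) := by
  refine ⟨fun v => enc (ones (Y.a (dec v).length)), fun hF => FP.fn Y.ha hF, fun v => ?_⟩
  rw [len_enc, ones_length, length_dec]

/-- a program for the test of the clock number `c` -/
theorem Sys.exists_nT (c : ℕ) : ∃ nT : Tr → Tr → Tr,
    (∀ {F G : Tr → Tr}, FP O F → FP O G → FP O (fun v => nT (F v) (G v))) ∧
    ∀ X M, nT X M ≠ leaf ↔ len M = N Y.a c (len X) := by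
  obtain ⟨aT, ha1, ha2⟩ := Y.exists_aT
  have h : ∀ c : ℕ, ∃ kT : Tr → Tr, (∀ {F : Tr → Tr}, FP O F → FP O (fun v => kT (F v))) ∧
      ∀ v, len (kT v) = c * lam (Y.a (len v)) := by
    intro c
    induction c with
    | zero => exact ⟨fun _ => leaf, fun _ => FP.const' _, fun v => by simp [len]⟩
    | succ c ih =>
      obtain ⟨kT, h1, h2⟩ := ih
      refine ⟨fun v => addU (kT v) (lamT (aT v)), fun hF => FP.addU' (h1 hF) (FP.lamT' (ha1 hF)),
        fun v => ?_⟩
      rw [Lazy.len_addU, h2, lamT_eq, len_num, ha2]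
      ring
  obtain ⟨kT, hk1, hk2⟩ := h c
  refine ⟨fun X M => sqT (node leaf (node leaf X)) (kT X) M, fun hF hG => ?_, fun X M => ?_⟩
  · exact FP.sqT' (FP.node' FP.leaf' (FP.node' FP.leaf' hF)) (hk1 hF) hG
  · rw [sqT_spec, hk2, N]
    exact ⟨fun h => h.symm, fun h => h.symm⟩

/-- the instance `1^N 0 (1^n, u)` where `N` is the clock number `c` -/
def inst (a : ℕ → ℕ) (c n : ℕ) (u : List Bool) : List Bool :=
  List.replicate (N a c n) true ++ false :: pr (ones n) u

theorem inst_length (a : ℕ → ℕ) (c n : ℕ) (u : List Bool) :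
    (inst a c n u).length = N a c n + 1 + (2 * n + 1 + u.length) := by
  simp [inst, pr_length]
  ring

/-- Data of a search problem whose instances are `(1^n, u)`, together with the clock number
`c`. -/
structure Prb (Y : Sys O) where
  /-- the clock of the instances -/
  c : ℕ
  /-- the length of the strings `u` -/
  p : Polynomial ℕ
  /-- `y` is a solution of the instance -/
  P : ℕ → List Bool → List Bool → Prop
  /-- the bound for the length of solutions -/
  B : Polynomial ℕ
  hB : ∀ n u y, P n u y → u.length ≤ p.eval n → y.length ≤ B.eval (N Y.a c n)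
  hP : ∃ PT : Tr → Tr → Tr → Tr → Tr,
    (∀ {F G H I : Tr → Tr}, FP O F → FP O G → FP O H → FP O I →
      FP O (fun v => PT (F v) (G v) (H v) (I v))) ∧
    ∀ (n : ℕ) (M : Tr) (u y : List Bool), len M = N Y.a c n →
      (PT (enc (ones n)) M (enc u) (enc y) ≠ leaf ↔ P n u y)

variable {Y}

/-- The problem, restricted to the lengths in `C`, as a total search problem. -/
theorem Prb.exists_tfnp (D : Prb Y) (C : ℕ → Prop) (cT : Tr → Tr)
    (hC : ∀ {F : Tr → Tr}, FP O F → FP O (fun v => cT (F v)))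
    (hC' : ∀ v, cT v ≠ leaf ↔ C (len v))
    (htot : ∀ n, C n → ∀ u : List Bool, u.length ≤ D.p.eval n → ∃ y, D.P n u y) :
    ∃ S : TFNP O, ∀ (n : ℕ) (u y : List Bool), C n → u.length ≤ D.p.eval n →
      S.IsSol (inst Y.a D.c n u) y → D.P n u y := by
  classical
  obtain ⟨PT, hp, hp'⟩ := D.hP
  obtain ⟨nT, hn, hn'⟩ := Y.exists_nT D.c
  obtain ⟨Pp, hp1, hp2⟩ := exists_polyT D.p
  -- the condition on the instance
  let K : List Bool → Prop := fun z => C (un1 (prs z).2).length ∧
    (prs z).1 = N Y.a D.c (un1 (prs z).2).length ∧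
    (un2 (prs z).2).length ≤ D.p.eval (un1 (prs z).2).length
  let R : List Bool → List Bool → Bool := fun z y =>
    decide (K z → D.P (un1 (prs z).2).length (un2 (prs z).2) y)
  have hR : PolyTimeRel O R := by
    have h1 : FP O (fun v => fst v) := FP.fst' FP.id'
    have h2 : FP O (fun v => snd v) := FP.snd' FP.id'
    have hM : FP O (fun v => fst (parseT (fst v))) := FP.fst' (FP.parseT' h1)
    have hr : FP O (fun v => fst (snd (parseT (fst v)))) := FP.fst' (FP.snd' (FP.parseT' h1))
    have hx : FP O (fun v => onesPre (un1T (fst (snd (parseT (fst v))))) leaf) :=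
      FP.onesPre' (FP.un1T' hr) FP.leaf'
    have hu := FP.un2T' hr
    have h3 : FP O (fun v => cs (andT (cT (un1T (fst (snd (parseT (fst v))))))
        (andT (nT (un1T (fst (snd (parseT (fst v))))) (fst (parseT (fst v))))
          (cs (dropU (Pp (un1T (fst (snd (parseT (fst v))))))
            (un2T (fst (snd (parseT (fst v)))))) tt leaf))) tt
        (PT (onesPre (un1T (fst (snd (parseT (fst v))))) leaf) (fst (parseT (fst v)))
          (un2T (fst (snd (parseT (fst v))))) (norm (snd v)))) :=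
      FP.cs' (FP.andT' (hC (FP.un1T' hr)) (FP.andT' (hn (FP.un1T' hr) hM)
        (FP.cs' (FP.dropU' (hp2 _ _ (FP.un1T' hr)) hu) (FP.const' tt) FP.leaf')))
        (FP.const' tt) (hp hx hM hu (FP.norm' h2))
    refine polyTimeRel_of_FP h3 (fun z y => ?_)
    have e : (R z y = true) = (K z → D.P (un1 (prs z).2).length (un2 (prs z).2) y) := by
      simp only [R, decide_eq_true_eq]
    rw [e]
    simp only [fst_node, snd_node, snd_parseT, fst_parseT, un1T_enc, un2T_enc, onesPre_leaf,
      len_enc, norm_eq, dec_enc]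
    have hK : andT (cT (enc (un1 (prs z).2))) (andT (nT (enc (un1 (prs z).2)) (num (prs z).1))
        (cs (dropU (Pp (enc (un1 (prs z).2))) (enc (un2 (prs z).2))) tt leaf)) ≠ leaf ↔ K z := by
      rw [andT_spec, andT_spec, hC', hn', len_enc, len_num]
      refine and_congr Iff.rfl (and_congr Iff.rfl ?_)
      by_cases h : (un2 (prs z).2).length ≤ D.p.eval (un1 (prs z).2).length
      · rw [cs_pos _ _ (by rw [dropU_eq_leaf, hp1, len_num, len_enc, len_enc]; exact h)]
        simp [h]
      · rw [cs_neg _ _ (by rw [ne_eq, dropU_eq_leaf, hp1, len_num, len_enc, len_enc]; exact h)]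
        simp [h]
    by_cases h4 : K z
    · rw [cs_neg _ _ (hK.mpr h4)]
      have h5 := hp' (un1 (prs z).2).length (num (prs z).1) (un2 (prs z).2) y
        (by rw [len_num]; exact h4.2.1)
      rw [show List.replicate (un1 (prs z).2).length true = ones (un1 (prs z).2).length from rfl,
        h5]
      exact ⟨fun h _ => h, fun h => h h4⟩
    · rw [cs_pos _ _ (by
        by_contra h5
        exact h4 (hK.mp h5))]
      simp [h4]
  refine ⟨⟨R, D.B, hR, fun z => ?_⟩, ?_⟩
  · by_cases h4 : K z
    · obtain ⟨y, hy⟩ := htot _ h4.1 _ h4.2.2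
      refine ⟨y, (D.hB _ _ _ hy h4.2.2).trans ?_, ?_⟩
      · apply poly_mono
        rw [← h4.2.1]
        have := prs_le z
        omega
      · simp only [R, decide_eq_true_eq]
        exact fun _ => hy
    · refine ⟨[], by simp, ?_⟩
      simp only [R, decide_eq_true_eq]
      exact fun h => absurd h h4
  · intro n u y hn1 hu hy
    have h5 := hy.2
    simp only [R, K, decide_eq_true_eq, inst, prs_ones, un1_pr, un2_pr, ones_length] at h5
    exact h5 ⟨hn1, trivial, hu⟩

/-- `u`, `w` refute that the programs number `b` and `b + 1` of the name, with the next clock,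
reduce the problem at length `n` to `T` -/
def Prb.Ref (D : Prb Y) (T : TFNP O) (b n : ℕ) (u w : List Bool) : Prop :=
  u.length ≤ D.p.eval n ∧
    T.IsSol (run O (blk b (Y.nm n)) (enc (inst Y.a D.c n u)) (N Y.a (D.c + 1) n)) w ∧
    ¬ D.P n u (run O (blk (b + 1) (Y.nm n)) (node (enc (inst Y.a D.c n u)) (enc w))
      (N Y.a (D.c + 1) n))

/-- `y = 1^N 0 (u, w)` where `N` is the clock of the instances and `u`, `w` is a refutation -/
def Prb.Core (D : Prb Y) (T : TFNP O) (b n : ℕ) (y : List Bool) : Prop :=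
  (prs y).1 = N Y.a D.c n ∧
    (prs y).2.length = 2 * (un1 (prs y).2).length + 1 + (un2 (prs y).2).length ∧
    D.Ref T b n (un1 (prs y).2) (un2 (prs y).2)

theorem Prb.core_mk (D : Prb Y) {T : TFNP O} {b n : ℕ} {u w : List Bool} (h : D.Ref T b n u w) :
    D.Core T b n (List.replicate (N Y.a D.c n) true ++ false :: pr u w) := by
  unfold Prb.Core
  rw [prs_ones, un1_pr, un2_pr, pr_length]
  exact ⟨rfl, rfl, h⟩

/-- the bound for the length of refutations -/
noncomputable def Prb.cB (D : Prb Y) (T : TFNP O) : Polynomial ℕ :=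
  2 * D.p + Polynomial.X + 2 + T.p

theorem Prb.core_length (D : Prb Y) {T : TFNP O} {b n : ℕ} {y : List Bool}
    (h : D.Core T b n y) : y.length ≤ (D.cB T).eval (N Y.a (D.c + 1) n) := by
  obtain ⟨h1, h2, h3, h4, _⟩ := h
  have h5 := length_le_prs y
  have h6 := h4.1.trans (poly_mono T.p (run_length (O := O) (blk b (Y.nm n))
    (enc (inst Y.a D.c n (un1 (prs y).2))) (N Y.a (D.c + 1) n)))
  have h7 := N_mono Y.a n (Nat.le_succ D.c)
  have h8 := N_two Y.a (D.c + 1) n
  have h9 := poly_mono D.p (show n ≤ N Y.a (D.c + 1) n by omega)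
  simp only [Prb.cB, Polynomial.eval_add, Polynomial.eval_mul, Polynomial.eval_ofNat,
    Polynomial.eval_X]
  simp only [Nat.succ_eq_add_one] at h7
  omega

/-- a program for refutations (the arguments are `1^n`, the clock number `c + 1` and `y`) -/
theorem Prb.exists_coreT (D : Prb Y) (T : TFNP O) (b : ℕ) : ∃ cT : Tr → Tr → Tr → Tr,
    (∀ {F G H : Tr → Tr}, FP O F → FP O G → FP O H → FP O (fun v => cT (F v) (G v) (H v))) ∧
    ∀ (n : ℕ) (M : Tr) (y : List Bool), len M = N Y.a (D.c + 1) n →
      (cT (enc (ones n)) M (enc y) ≠ leaf ↔ D.Core T b n y) := by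
  obtain ⟨PT, hp, hp'⟩ := D.hP
  obtain ⟨nT, hn, hn'⟩ := Y.exists_nT D.c
  obtain ⟨Pp, hp1, hp2⟩ := exists_polyT D.p
  obtain ⟨PTT, hT1, hT2⟩ := exists_polyT T.p
  -- the instance
  let Z : Tr → Tr → Tr := fun X W => onesPre (fst (parseT W)) (node leaf
    (prT X (un1T (fst (snd (parseT W))))))
  refine ⟨fun X M W => andT (nT X (fst (parseT W)))
    (andT (eqL (fst (snd (parseT W))) (addU (un1T (fst (snd (parseT W))))
      (addU (un1T (fst (snd (parseT W)))) (node leaf (un2T (fst (snd (parseT W))))))))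
    (cs (dropU (Pp X) (un1T (fst (snd (parseT W)))))
      (andT (qT T.R PTT (runT O (blkT b (enc (Y.nm (len X)))) (Z X W) M)
          (un2T (fst (snd (parseT W)))))
        (cs (PT X (fst (parseT W)) (un1T (fst (snd (parseT W))))
          (runT O (blkT (b + 1) (enc (Y.nm (len X))))
            (node (Z X W) (un2T (fst (snd (parseT W))))) M)) tt leaf)) leaf)), ?_, ?_⟩
  · intro F G H hF hG hH
    have hM := FP.fst' (FP.parseT' hH)
    have hr := FP.fst' (FP.snd' (FP.parseT' hH))
    have hu := FP.un1T' hr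
    have hw := FP.un2T' hr
    have hk := FP.nm' Y.hnm hF
    have hz := FP.onesPre' hM (FP.node' FP.leaf' (FP.prT' hF hu))
    exact FP.andT' (hn hF hM) (FP.andT' (FP.eqL' hr (FP.addU' hu (FP.addU' hu
      (FP.node' FP.leaf' hw))))
      (FP.cs' (FP.dropU' (hp2 _ _ hF) hu)
        (FP.andT' (FP.qT' T.polyTime (hT2 O) (FP.runT' (FP.blkT' b hk) hz hG) hw)
          (FP.cs' (hp hF hM hu (FP.runT' (FP.blkT' (b + 1) hk) (FP.node' hz hw) hG))
            (FP.const' tt) FP.leaf')) FP.leaf'))
  · intro n M y hM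
    rw [andT_spec, andT_spec, eqL_spec, hn', Prb.Core, Prb.Ref]
    simp only [fst_parseT, snd_parseT, un1T_enc, un2T_enc, Lazy.len_addU, len_enc, len,
      ones_length, blkT_enc, runT_eq, len_num, hM]
    refine and_congr_right fun h1 => and_congr ⟨fun h => by omega, fun h => by omega⟩ ?_
    have e1 : Z (enc (ones n)) (enc y) = enc (inst Y.a D.c n (un1 (prs y).2)) := by
      simp only [Z, fst_parseT, snd_parseT, un1T_enc, prT_enc]
      have : node leaf (enc (pr (ones n) (un1 (prs y).2))) =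
        enc (false :: pr (ones n) (un1 (prs y).2)) := rfl
      rw [this, onesPre_enc, len_num, h1, inst]
    rw [e1]
    by_cases h : (un1 (prs y).2).length ≤ D.p.eval n
    · rw [cs_pos _ _ (by rw [dropU_eq_leaf, hp1, len_num, len_enc, len_enc, ones_length]; exact h),
        andT_spec, qT_spec hT1, dec_enc, dec_enc]
      simp only [h, true_and]
      refine and_congr Iff.rfl ?_
      have h3 := hp' n (num (prs y).1) (un1 (prs y).2) (run O (blk (b + 1) (Y.nm n))
        (node (enc (inst Y.a D.c n (un1 (prs y).2))) (enc (un2 (prs y).2)))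
        (N Y.a (D.c + 1) n)) (by rw [len_num]; exact h1)
      by_cases h2 : D.P n (un1 (prs y).2) (run O (blk (b + 1) (Y.nm n))
        (node (enc (inst Y.a D.c n (un1 (prs y).2))) (enc (un2 (prs y).2)))
        (N Y.a (D.c + 1) n))
      · rw [cs_neg _ _ (h3.mpr h2)]
        simp [h2]
      · rw [cs_pos _ _ (by
          by_contra h4
          exact h2 (h3.mp h4))]
        simp [h2]
    · rw [cs_neg _ _ (by
        rw [ne_eq, dropU_eq_leaf, hp1, len_num, len_enc, len_enc, ones_length]; exact h)]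
      simp [h]

/-- A reduction of the problem at the lengths in `C` cannot be refuted. -/
theorem Prb.not_core (D : Prb Y) {T : TFNP O} (b : ℕ) {S : TFNP O} (hS : S.Reduces T)
    {C : ℕ → Prop} (h : ∀ (n : ℕ) (u y : List Bool), C n → u.length ≤ D.p.eval n →
      S.IsSol (inst Y.a D.c n u) y → D.P n u y) :
    ∃ j1 j2 K : ℕ, ∀ n, C n → K ≤ lam (Y.a n) → blk b (Y.nm n) = j1 →
      blk (b + 1) (Y.nm n) = j2 → ∀ y, ¬ D.Core T b n y := by
  obtain ⟨j1, j2, B, hB⟩ := run_red hS
  obtain ⟨K, hK⟩ := poly_le_N (B.comp (3 * Polynomial.X + 2 + D.p))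
  refine ⟨j1, j2, K, fun n hn hKn e1 e2 y hy => ?_⟩
  obtain ⟨_, _, h1, h2, h3⟩ := hy
  rw [e1] at h2
  rw [e2] at h3
  have h4 : B.eval (inst Y.a D.c n (un1 (prs y).2)).length ≤ N Y.a (D.c + 1) n := by
    refine le_trans (poly_mono B (n := 3 * N Y.a D.c n + 2 + D.p.eval (N Y.a D.c n)) ?_) ?_
    · rw [inst_length]
      have h5 := N_two Y.a D.c n
      have h6 := poly_mono D.p (show n ≤ N Y.a D.c n by omega)
      omega
    · have := hK Y.a D.c n hKn
      simpa only [Polynomial.eval_comp, Polynomial.eval_add, Polynomial.eval_mul,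
        Polynomial.eval_ofNat, Polynomial.eval_X] using this
  exact h3 (h n _ _ hn h1 (hB _ _ h4 _ h2))

/-- if nothing is refuted then there are solutions (as `T` is total) -/
theorem Prb.sol_of_not_core (D : Prb Y) {T : TFNP O} {b n : ℕ} (h : ∀ y, ¬ D.Core T b n y)
    (u : List Bool) (hu : u.length ≤ D.p.eval n) : ∃ v, D.P n u v := by
  obtain ⟨w, hw⟩ := T.total (run O (blk b (Y.nm n)) (enc (inst Y.a D.c n u))
    (N Y.a (D.c + 1) n))
  by_contra h1
  push Not at h1
  exact h _ (D.core_mk (T := T) (b := b) ⟨hu, hw, h1 _⟩)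

end Pool.Agent.H69.NP
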