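import Pool.Agent.H69.NP.Prob

set_option autoImplicit false

/-!
# Removing two of the nested sets
-/

namespace Pool.Agent.H69.NP

open Pool.Agent.H88.RO Pool.Agent.H88.RO.Tr Pool.Agent.H65.TS Pool.Agent.H65.NU
open Pool.Agent.H69.NL hiding N1 N2 N1_le_N2
open Pool.Agent.H40.EL (U_mono andT andT_spec FP.andT' exists_pow_bound' lam lam_bounds lamT
  lamT_eq FP.lamT' sqT sqT_spec FP.sqT' lpT lpT_eq FP.lpT' lgT lgT_eq FP.lgT')

variable {O : List Bool → Bool}

/-- the name without its first five numbers -/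
def tl (s : List Bool) : List Bool := (fun t => (prs t).2)^[5] s

theorem tl_cons (e i1 i2 j1 j2 : ℕ) (s : List Bool) :
    tl (List.replicate e true ++ false :: (List.replicate i1 true ++ false ::
      (List.replicate i2 true ++ false :: (List.replicate j1 true ++ false ::
      (List.replicate j2 true ++ false :: s))))) = s := by
  simp [tl, prs_ones]

/-- program for `tl` -/
def tlT (s : Tr) : Tr := (fun t => fst (snd (parseT t)))^[5] s

theorem tlT_enc (s : List Bool) : tlT (enc s) = enc (tl s) := by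
  have h : ∀ j, ∀ s : List Bool, (fun t => fst (snd (parseT t)))^[j] (enc s) =
      enc ((fun t => (prs t).2)^[j] s) := by
    intro j
    induction j with
    | zero => intro s; rfl
    | succ j ih =>
      intro s
      rw [Function.iterate_succ_apply, Function.iterate_succ_apply, snd_parseT, ih]
  rw [tlT, h, tl]

theorem FP.tlT' {F : Tr → Tr} (hF : FP O F) : FP O (fun v => tlT (F v)) := by
  have h : ∀ j, ∀ {F : Tr → Tr}, FP O F →
      FP O (fun v => (fun t => fst (snd (parseT t)))^[j] (F v)) := by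
    intro j
    induction j with
    | zero => intro F hF; exact hF
    | succ j ih =>
      intro F hF
      simp only [Function.iterate_succ_apply]
      exact ih (FP.fst' (FP.snd' (FP.parseT' hF)))
  exact h 5 hF

theorem blk_tl (s : List Bool) : blk 0 (tl s) = blk 5 s := rfl

/-- `y` is a solution of the instance `(1^n, u)` for the relation `Q` -/
def Sol (Q : List Bool → List Bool → Bool) (q : Polynomial ℕ) (n : ℕ) (u v : List Bool) : Prop :=
  v.length ≤ q.eval (pr (ones n) u).length ∧ Q (pr (ones n) u) v = true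

/-- `y` shows that the program number `blk 5` of the name accepts some witness of length at most
the first clock -/
def GE (Y : Sys O) (n : ℕ) (y : List Bool) : Prop :=
  (prs y).1 = N Y.a 1 n ∧ (prs y).2.length ≤ N Y.a 1 n ∧ Acc O (blk 5 (Y.nm n)) n (prs y).2

theorem GE.length {Y : Sys O} {n : ℕ} {y : List Bool} (h : GE Y n y) (c : ℕ) (hc : 1 ≤ c) :
    y.length ≤ 2 * N Y.a c n + 1 := by
  have h1 := length_le_prs y
  have h2 := N_mono Y.a n hc
  have h3 := h.1
  have h4 := h.2.1
  omega

theorem exists_gT (Y : Sys O) : ∃ gT : Tr → Tr → Tr,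
    (∀ {F G : Tr → Tr}, FP O F → FP O G → FP O (fun v => gT (F v) (G v))) ∧
    ∀ (n : ℕ) (y : List Bool), gT (enc (ones n)) (enc y) ≠ leaf ↔ GE Y n y := by
  obtain ⟨nT, hn, hn'⟩ := Y.exists_nT 1
  refine ⟨fun X W => andT (nT X (fst (parseT W)))
    (andT (cs (dropU (fst (parseT W)) (fst (snd (parseT W)))) tt leaf)
      (snd (U O (machT (blkT 5 (enc (Y.nm (len X)))))
        (node X (fst (snd (parseT (fst (snd (parseT W))))))) (len (fst (parseT (fst (snd
          (parseT W))))))))), ?_, ?_⟩
  · intro F G hF hG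
    have hM := FP.fst' (FP.parseT' hG)
    have hr := FP.fst' (FP.snd' (FP.parseT' hG))
    exact FP.andT' (hn hF hM) (FP.andT' (FP.cs' (FP.dropU' hM hr) (FP.const' tt) FP.leaf')
      (FP.snd' (FP.U' (FP.machT' (FP.blkT' 5 (FP.nm' Y.hnm hF)))
        (FP.node' hF (FP.fst' (FP.snd' (FP.parseT' hr)))) (FP.fst' (FP.parseT' hr)))))
  · intro n y
    rw [andT_spec, andT_spec, hn', GE, Acc]
    simp only [fst_parseT, snd_parseT, len_num, len_enc, ones_length, machT_eq, blkT_enc]
    refine and_congr_right fun h1 => and_congr ?_ Iff.rfl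
    by_cases h : (prs y).2.length ≤ N Y.a 1 n
    · rw [cs_pos _ _ (by rw [dropU_eq_leaf, len_num, len_enc, h1]; exact h)]
      simp [h]
    · rw [cs_neg _ _ (by rw [ne_eq, dropU_eq_leaf, len_num, len_enc, h1]; exact h)]
      simp [h]

/-- a program for the relation `Sol` -/
theorem exists_solT {Q : List Bool → List Bool → Bool} (hQ : PolyTimeRel O Q)
    (q : Polynomial ℕ) : ∃ sT : Tr → Tr → Tr → Tr,
    (∀ {F G H : Tr → Tr}, FP O F → FP O G → FP O H → FP O (fun v => sT (F v) (G v) (H v))) ∧
    ∀ (n : ℕ) (u y : List Bool), sT (enc (ones n)) (enc u) (enc y) ≠ leaf ↔ Sol Q q n u y := by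
  obtain ⟨Pq, hq1, hq2⟩ := exists_polyT q
  refine ⟨fun X V W => qT Q Pq (prT X V) W, fun hF hG hH => ?_, fun n u y => ?_⟩
  · exact FP.qT' hQ (hq2 O) (FP.prT' hF hG) hH
  · show qT Q Pq (prT (enc (ones n)) (enc u)) (enc y) ≠ leaf ↔ _
    rw [prT_enc, qT_spec hq1, dec_enc, dec_enc]
    exact Iff.rfl

theorem or_spec (a b : Tr) : cs a b tt ≠ leaf ↔ a ≠ leaf ∨ b ≠ leaf := by
  by_cases h : a = leaf
  · rw [cs_pos _ _ h]
    simp [h]
  · rw [cs_neg _ _ h]
    simp [h]

theorem sol_length {Q : List Bool → List Bool → Bool} {p q : Polynomial ℕ} {n M : ℕ}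
    {u y : List Bool} (h : Sol Q q n u y) (hu : u.length ≤ p.eval n) (hM : n + 2 ≤ M) :
    y.length ≤ (q.comp (2 * Polynomial.X + 1 + p)).eval M := by
  refine h.1.trans ?_
  simp only [Polynomial.eval_comp, Polynomial.eval_add, Polynomial.eval_mul,
    Polynomial.eval_ofNat, Polynomial.eval_X, Polynomial.eval_one]
  apply poly_mono
  rw [pr_length, ones_length]
  have := poly_mono p (show n ≤ M by omega)
  omega

/-- the first problem: a solution for `Q` or evidence for the rest -/
noncomputable def prb1 (Y : Sys O) {Q : List Bool → List Bool → Bool} (hQ : PolyTimeRel O Q)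
    (p q : Polynomial ℕ) : Prb Y where
  c := 1
  p := p
  P := fun n u y => Sol Q q n u y ∨ GE Y n y
  B := q.comp (2 * Polynomial.X + 1 + p) + (2 * Polynomial.X + 1)
  hB := by
    intro n u y h hu
    have hN := N_two Y.a 1 n
    rw [Polynomial.eval_add]
    rcases h with h | h
    · exact (sol_length h hu hN).trans (Nat.le_add_right _ _)
    · have h1 := h.length 1 le_rfl
      have h2 : (2 * Polynomial.X + 1 : Polynomial ℕ).eval (N Y.a 1 n) = 2 * N Y.a 1 n + 1 := by
        simp
      rw [h2]
      omega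
  hP := by
    obtain ⟨sT, hs, hs'⟩ := exists_solT hQ q
    obtain ⟨gT, hg, hg'⟩ := exists_gT Y
    refine ⟨fun X _ V W => cs (sT X V W) (gT X W) tt, fun hF _ hH hI => ?_,
      fun n M u y _ => ?_⟩
    · exact FP.cs' (hs hF hH hI) (hg hF hI) (FP.const' tt)
    · rw [or_spec, hs', hg']

/-- the second problem: a refutation of a reduction of the first one, or a solution for `Q`, or
evidence for the rest -/
noncomputable def prb2 (Y : Sys O) (T : TFNP O) (D : Prb Y) (hD : D.c = 1)
    {Q : List Bool → List Bool → Bool} (hQ : PolyTimeRel O Q) (p q : Polynomial ℕ) : Prb Y where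
  c := 2
  p := p
  P := fun n u y => D.Core T 3 n y ∨ (Sol Q q n u y ∨ GE Y n y)
  B := D.cB T + (q.comp (2 * Polynomial.X + 1 + p) + (2 * Polynomial.X + 1))
  hB := by
    intro n u y h hu
    have hN := N_two Y.a 2 n
    rw [Polynomial.eval_add, Polynomial.eval_add]
    rcases h with h | h | h
    · have h1 := D.core_length h
      rw [hD] at h1
      exact h1.trans (Nat.le_add_right _ _)
    · have := sol_length h hu hN
      omega
    · have h1 := h.length 2 (by norm_num)
      have h2 : (2 * Polynomial.X + 1 : Polynomial ℕ).eval (N Y.a 2 n) = 2 * N Y.a 2 n + 1 := by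
        simp
      rw [h2]
      omega
  hP := by
    obtain ⟨sT, hs, hs'⟩ := exists_solT hQ q
    obtain ⟨gT, hg, hg'⟩ := exists_gT Y
    obtain ⟨cT, hc, hc'⟩ := D.exists_coreT T 3
    refine ⟨fun X M V W => cs (cT X M W) (cs (sT X V W) (gT X W) tt) tt,
      fun hF hG hH hI => ?_, fun n M u y hM => ?_⟩
    · exact FP.cs' (hc hF hG hI) (FP.cs' (hs hF hH hI) (hg hF hI) (FP.const' tt)) (FP.const' tt)
    · rw [or_spec, or_spec, hs', hg', hc' n M y (by rw [hD]; exact hM)]

end Pool.Agent.H69.NP
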