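import Pool.Agent.H69.NL.Red

set_option autoImplicit false

/-!
# Universal sets for systems of names of programs

A system of names consists of a set of lengths `d`, a string `nm n` for every length `n` and an
exponent `a n`, such that every string is the name of a length in `d` with a large exponent.
-/

namespace Pool.Agent.H69.NP

open Pool.Agent.H88.RO Pool.Agent.H88.RO.Tr Pool.Agent.H65.TS Pool.Agent.H65.NU
open Pool.Agent.H69.NL
open Pool.Agent.H40.EL (U_mono andT andT_spec FP.andT' exists_pow_bound' lam lam_bounds lamT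
  lamT_eq FP.lamT' sqT sqT_spec FP.sqT')

variable {O : List Bool → Bool}

/-- Names of programs. -/
structure Sys (O : List Bool → Bool) where
  /-- the set of lengths -/
  d : ℕ → Bool
  /-- the names -/
  nm : ℕ → List Bool
  /-- the exponents -/
  a : ℕ → ℕ
  hd : PolyTimeFun O (fun x => [d x.length])
  hnm : PolyTimeFun O (fun x => nm x.length)
  ha : PolyTimeFun O (fun x => ones (a x.length))
  names : ∀ (s : List Bool) (K : ℕ), ∃ n, d n = true ∧ nm n = s ∧ K ≤ lam (a n)

theorem FP.nm' {nm : ℕ → List Bool} (h : PolyTimeFun O (fun x => nm x.length)) {F : Tr → Tr}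
    (hF : FP O F) : FP O (fun v => enc (nm (len (F v)))) := by
  have := FP.fn h hF
  simpa only [length_dec] using this

/-- The relation of the universal set. -/
def Sys.RU (Y : Sys O) (x y : List Bool) : Bool :=
  decide (x = ones x.length ∧ Y.d x.length = true ∧
    snd (U O (mach (blk 0 (Y.nm x.length))) (node (enc x) (enc (prs y).2)) (prs y).1) ≠ leaf)

theorem Sys.polyTime_RU (Y : Sys O) : PolyTimeRel O Y.RU := by
  have h1 : FP O (fun v => fst v) := FP.fst' FP.id'
  have h2 : FP O (fun v => snd v) := FP.snd' FP.id'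
  have h3 : FP O (fun v => andT (eqL (fst (parseT (fst v))) (fst v)) (andT (bit (Y.d (len (fst v))))
      (snd (U O (machT (blkT 0 (enc (Y.nm (len (fst v))))))
        (node (fst v) (fst (snd (parseT (snd v))))) (len (fst (parseT (snd v)))))))) :=
    FP.andT' (FP.eqL' (FP.fst' (FP.parseT' h1)) h1) (FP.andT' (FP.mark Y.hd h1)
      (FP.snd' (FP.U' (FP.machT' (FP.blkT' 0 (FP.nm' Y.hnm h1)))
        (FP.node' h1 (FP.fst' (FP.snd' (FP.parseT' h2)))) (FP.fst' (FP.parseT' h2)))))
  refine polyTimeRel_of_FP h3 (fun x y => ?_)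
  rw [Sys.RU, decide_eq_true_eq, andT_spec, andT_spec, eqL_spec, fst_node, snd_node, fst_parseT,
    len_num, len_enc, prs_eq_length, bit_ne_leaf, machT_eq, blkT_enc, len_num, snd_parseT,
    fst_parseT, len_num]

/-- The universal set. -/
def Sys.LU (Y : Sys O) : Set (List Bool) :=
  {x | ∃ y : List Bool, y.length ≤ (x.length + 2) ^ Y.a x.length ∧ Y.RU x y = true}

theorem Sys.LU_tally (Y : Sys O) : TallyAt Y.d Y.LU := by
  rintro x ⟨y, _, h⟩
  rw [Sys.RU, decide_eq_true_eq] at h
  exact ⟨x.length, h.2.1, h.1⟩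

theorem Sys.LU_inNTime (Y : Sys O) : InNTime O Y.a Y.LU := ⟨Y.RU, Y.polyTime_RU, fun _ => Iff.rfl⟩

/-- the program number `e` accepts `(1^n, w)` with clock `K`, where `y = 1^K 0 w` -/
def Acc (O : List Bool → Bool) (e n : ℕ) (y : List Bool) : Prop :=
  snd (U O (mach e) (node (enc (ones n)) (enc (prs y).2)) (prs y).1) ≠ leaf

theorem Sys.mem_LU (Y : Sys O) (n : ℕ) : ones n ∈ Y.LU ↔ Y.d n = true ∧
    ∃ y : List Bool, y.length ≤ (n + 2) ^ Y.a n ∧ Acc O (blk 0 (Y.nm n)) n y := by
  have h : ∀ y, Y.RU (ones n) y = true ↔ Y.d n = true ∧ Acc O (blk 0 (Y.nm n)) n y := by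
    intro y
    rw [Sys.RU, decide_eq_true_eq, ones_length, Acc]
    exact ⟨fun h => h.2, fun h => ⟨rfl, h⟩⟩
  constructor
  · rintro ⟨y, h1, h2⟩
    rw [ones_length] at h1
    exact ⟨((h y).mp h2).1, y, h1, ((h y).mp h2).2⟩
  · rintro ⟨h1, y, h2, h3⟩
    refine ⟨y, ?_, (h y).mpr ⟨h1, h3⟩⟩
    rw [ones_length]
    exact h2

/-! ### the clocks -/

/-- the clock `(n + 2) ^ (2 ^ (c β))` with `β = lam (a n)` -/
def N (a : ℕ → ℕ) (c n : ℕ) : ℕ := (n + 2) ^ (2 ^ (c * lam (a n)))

theorem N_two (a : ℕ → ℕ) (c n : ℕ) : n + 2 ≤ N a c n := by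
  unfold N
  calc n + 2 = (n + 2) ^ 1 := (pow_one _).symm
    _ ≤ _ := Nat.pow_le_pow_right (by omega) (Nat.one_le_two_pow)

theorem N_mono (a : ℕ → ℕ) (n : ℕ) {b c : ℕ} (h : b ≤ c) : N a b n ≤ N a c n := by
  unfold N
  apply Nat.pow_le_pow_right (by omega)
  apply Nat.pow_le_pow_right (by norm_num)
  exact Nat.mul_le_mul_right _ h

theorem N_zero (a : ℕ → ℕ) (n : ℕ) : N a 0 n = n + 2 := by simp [N]

/-- polynomials of a clock are below the next clock at lengths with large exponents -/
theorem poly_le_N (B : Polynomial ℕ) : ∃ K, ∀ (a : ℕ → ℕ) (c n : ℕ), K ≤ lam (a n) →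
    B.eval (N a c n) ≤ N a (c + 1) n := by
  obtain ⟨D, hD⟩ := exists_pow_bound' B
  refine ⟨2 * D, fun a c n h => (hD D le_rfl _).trans ?_⟩
  have h1 : 2 ≤ N a c n := by
    have := N_two a c n
    omega
  calc (N a c n + 2) ^ D ≤ (N a c n ^ 2) ^ D := Nat.pow_le_pow_left (by nlinarith) D
    _ = (n + 2) ^ (2 ^ (c * lam (a n)) * (2 * D)) := by
        unfold N
        rw [← pow_mul, ← pow_mul]
    _ ≤ N a (c + 1) n := by
        unfold N
        apply Nat.pow_le_pow_right (by omega)
        have h3 : 2 * D ≤ 2 ^ lam (a n) := by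
          have := Nat.lt_two_pow_self (n := lam (a n))
          omega
        calc 2 ^ (c * lam (a n)) * (2 * D) ≤ 2 ^ (c * lam (a n)) * 2 ^ lam (a n) :=
              Nat.mul_le_mul_left _ h3
          _ = 2 ^ ((c + 1) * lam (a n)) := by rw [← pow_add]; congr 1; ring

theorem two_pow_ge4 (β : ℕ) (h : 5 ≤ β) : 4 * β + 1 ≤ 2 ^ β := by
  induction β, h using Nat.le_induction with
  | base => norm_num
  | succ n hn ih =>
    rw [pow_succ]
    omega

/-- the exponents: `β` with `2 ^ (4 β) ≤ a` -/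
theorem lam_four {m : ℕ} (h : 5 ≤ lam m) : 2 ^ (4 * lam m) ≤ m := by
  have h1 := (lam_bounds m).1
  have h2 := two_pow_ge4 (lam m) h
  have h3 : 2 ^ (4 * lam m + 1) ≤ 2 ^ 2 ^ lam m := Nat.pow_le_pow_right (by norm_num) h2
  have h4 : 2 ^ (4 * lam m + 1) = 2 * 2 ^ (4 * lam m) := by rw [pow_succ]; ring
  have h5 : 2 ^ 1 ≤ 2 ^ (4 * lam m) := Nat.pow_le_pow_right (by norm_num) (by omega)
  omega

/-- A program of polynomial cost which accepts only witnesses of length polynomial in the clock
number 3: at lengths `n` where it is named, it decides membership of `1^n` in the universal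
set. -/
theorem Sys.LU_iff (Y : Sys O) {V : Tr → Tr} (hV : FP O V) (P : Polynomial ℕ) :
    ∃ e c : ℕ, ∀ n, Y.d n = true → blk 0 (Y.nm n) = e → c ≤ lam (Y.a n) →
      (∀ w : List Bool, V (node (enc (ones n)) (enc w)) ≠ leaf →
        w.length ≤ P.eval (N Y.a 3 n)) →
      (ones n ∈ Y.LU ↔ ∃ w : List Bool, V (node (enc (ones n)) (enc w)) ≠ leaf) := by
  obtain ⟨cV, q, hc⟩ := hV
  -- the size of the witness
  let W : Polynomial ℕ := Polynomial.C (size (code cV) + 10) *
    q.comp (4 * Polynomial.X + 4 * P + 3) + 11 + P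
  obtain ⟨D, hD⟩ := poly_le_N W
  refine ⟨sval (rpn (code cV)), D + 5, fun n hn he hcl hlen => ?_⟩
  rw [Y.mem_LU, and_iff_right hn, he]
  have hmem : ∀ y : List Bool, Acc O (sval (rpn (code cV))) n y ↔
      snd (U O (code cV) (node (enc (ones n)) (enc (prs y).2)) (prs y).1) ≠ leaf := by
    intro y
    rw [Acc, mach_sval]
  constructor
  · rintro ⟨y, _, hy⟩
    rw [hmem] at hy
    refine ⟨(prs y).2, ?_⟩
    rcases U_cases (O := O) (code cV) (node (enc (ones n)) (enc (prs y).2)) (prs y).1 with h | ⟨r, h⟩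
    · rw [h] at hy
      exact absurd rfl hy
    · obtain ⟨t, _, ht⟩ := hc (node (enc (ones n)) (enc (prs y).2))
      have h1 := U_mono (le_max_left (prs y).1 ((size (code cV) + 10) * t + 10)) h
      have h2 := U_eq ht (le_max_right (prs y).1 ((size (code cV) + 10) * t + 10))
      rw [h1] at h2
      injection h2 with _ h3
      rw [h] at hy
      rw [← h3]
      exact hy
  · rintro ⟨w, hw⟩
    obtain ⟨t, ht, het⟩ := hc (node (enc (ones n)) (enc w))
    have hwl := hlen w hw
    refine ⟨List.replicate ((size (code cV) + 10) * t + 10) true ++ false :: w, ?_, ?_⟩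
    · have hm := N_two Y.a 3 n
      have h1 : size (node (enc (ones n)) (enc w)) ≤
          4 * N Y.a 3 n + 4 * P.eval (N Y.a 3 n) + 3 := by
        have h2 := size_enc_le (ones n)
        have h3 := size_enc_le w
        rw [ones_length] at h2
        simp only [size]
        omega
      have h4 : t ≤ q.eval (4 * N Y.a 3 n + 4 * P.eval (N Y.a 3 n) + 3) :=
        ht.trans (poly_mono q h1)
      have h5 : (size (code cV) + 10) * t + 10 + (w.length + 1) ≤ W.eval (N Y.a 3 n) := by
        have h6 := Nat.mul_le_mul_left (size (code cV) + 10) h4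
        simp only [W, Polynomial.eval_add, Polynomial.eval_mul, Polynomial.eval_C,
          Polynomial.eval_comp, Polynomial.eval_ofNat, Polynomial.eval_X]
        omega
      have h7 : W.eval (N Y.a 3 n) ≤ N Y.a 4 n := hD Y.a 3 n (by omega)
      have h8 : N Y.a 4 n ≤ (n + 2) ^ Y.a n := by
        unfold N
        exact Nat.pow_le_pow_right (by omega) (lam_four (by omega))
      rw [List.length_append, List.length_replicate, List.length_cons]
      omega
    · rw [hmem, prs_ones, U_eq het le_rfl, snd_node]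
      exact hw

end Pool.Agent.H69.NP
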